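import Pool.Agent.H462R3.WP.Circ

/-!
# ALOGTIME (helper462)
-/

namespace H462R3.WP

set_option maxHeartbeats 400000

/-- The kinds of states of an alternating machine. -/
inductive Mode : Type
  | any | all | accept | reject

/-- The operations on a stack. -/
inductive Op : Type
  | keep | pop | push (b : Bool)

/-- The effect of an operation on a stack. The head of the list is the top of the stack. -/
def Op.run : Op → List Bool → List Bool
  | .keep, l => l
  | .pop, l => l.tail
  | .push b, l => b :: l

/-- The number with the binary digits `l`; the top of the stack is the least significant digit. -/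
def idx : List Bool → ℕ
  | [] => 0
  | b :: l => b.toNat + 2 * idx l

/-- An alternating machine with random access to the input and with `k + 1` stacks of bits (two
stacks are a Turing tape). Stack number 0 is the index stack: the machine sees the input symbol
whose position is the number on the index stack. In one step the machine sees its state, the top
symbols of the stacks (`none` for an empty stack) and the input symbol at the position given by
the index stack (`none` if the input is not that long), changes its state and performs one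
operation on every stack. -/
structure AltMachine : Type 1 where
  /-- the states -/
  Q : Type
  /-- there are finitely many states -/
  finQ : Finite Q
  /-- the number of stacks besides the index stack -/
  k : ℕ
  /-- the initial state -/
  start : Q
  /-- existential, universal, accepting or rejecting -/
  mode : Q → Mode
  /-- the possible steps -/
  step : Q → (Fin (k + 1) → Option Bool) → Option Bool → List (Q × (Fin (k + 1) → Op))

/-- The successors of a configuration of `M` with input `x`. A configuration consists of the
state and of the contents of the stacks. -/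
def AltMachine.succ (M : AltMachine) (x : List Bool) (c : M.Q × (Fin (M.k + 1) → List Bool)) :
    List (M.Q × (Fin (M.k + 1) → List Bool)) :=
  (M.step c.1 (fun i => (c.2 i).head?) (x[idx (c.2 0)]?)).map
    fun p => (p.1, fun i => (p.2 i).run (c.2 i))

/-- `M` with input `x` accepts from the configuration `c` within `t` steps: there is an accepting
computation tree of depth at most `t`. -/
def AltMachine.AcceptsIn (M : AltMachine) (x : List Bool) :
    ℕ → M.Q × (Fin (M.k + 1) → List Bool) → Prop
  | 0, c => M.mode c.1 = Mode.accept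
  | t + 1, c => match M.mode c.1 with
    | .accept => True
    | .reject => False
    | .any => ∃ c' ∈ M.succ x c, AltMachine.AcceptsIn M x t c'
    | .all => ∀ c' ∈ M.succ x c, AltMachine.AcceptsIn M x t c'

/-- The initial configuration. -/
def AltMachine.init (M : AltMachine) : M.Q × (Fin (M.k + 1) → List Bool) := (M.start, fun _ => [])

/-- ALOGTIME: the languages `L` of bit strings for which some alternating machine accepts the
words of length `n` in `L` within `O(log n)` steps and accepts no other words. -/
def ALOGTIME : Set (Set (List Bool)) :=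
  {L | ∃ (M : AltMachine) (c : ℕ), ∀ x : List Bool,
    (x ∈ L → M.AcceptsIn x (c * (Nat.log 2 x.length + 1)) M.init) ∧
    (x ∉ L → ∀ t, ¬ M.AcceptsIn x t M.init)}

/-- The words of bits with an odd number of ones. -/
def PARITY : Set (List Bool) := {l | Odd (l.count true)}

/-- A language `B` over a finite alphabet is ALOGTIME-hard with respect to (nonuniform) AC⁰ Turing
reductions. -/
def ALOGTIMEHard {A : Type} (B : Set (List A)) : Prop :=
  ∀ L ∈ ALOGTIME, AC0TuringReducible L B

/-! ### PARITY is in ALOGTIME -/

theorem AltMachine.acceptsIn_succ (M : AltMachine) (x : List Bool) (t : ℕ) :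
    ∀ c, M.AcceptsIn x t c → M.AcceptsIn x (t + 1) c := by
  induction t with
  | zero =>
    intro c h
    have h' : M.mode c.1 = Mode.accept := h
    rw [AltMachine.AcceptsIn, h']
    trivial
  | succ t ih =>
    intro c h
    rw [AltMachine.AcceptsIn] at h ⊢
    cases hm : M.mode c.1 with
    | accept => trivial
    | reject => rw [hm] at h; exact h
    | any =>
      rw [hm] at h
      obtain ⟨c', h1, h2⟩ := h
      exact ⟨c', h1, ih c' h2⟩
    | all =>
      rw [hm] at h
      intro c' h1
      exact ih c' (h c' h1)

theorem AltMachine.acceptsIn_mono (M : AltMachine) (x : List Bool) {t t' : ℕ} (h : t ≤ t') (c) :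
    M.AcceptsIn x t c → M.AcceptsIn x t' c := by
  obtain ⟨b, rfl⟩ := Nat.exists_eq_add_of_le h
  clear h
  induction b with
  | zero => exact fun h => h
  | succ b ih => exact fun h => M.acceptsIn_succ x _ c (ih h)

/-- the states of the machine for PARITY -/
inductive PSt : Type
  | init | s1 | s2 | acc | rej
  | g (b : Bool)
  | h (b₀ b₁ : Bool)
  deriving Fintype

def pmode : PSt → Mode
  | .acc => .accept
  | .rej => .reject
  | .h _ _ => .all
  | _ => .any

def pstep : PSt → (Fin 2 → Option Bool) → Option Bool → List (PSt × (Fin 2 → Op))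
  | .init, _, _ => [(.s1, ![.push true, .keep])]
  | .s1, _, some _ => [(.s1, ![.push false, .push false])]
  | .s1, _, none => [(.s2, ![.keep, .keep])]
  | .s2, s, _ => if s 0 = none then [(.g true, ![.keep, .keep])] else [(.s2, ![.pop, .keep])]
  | .g b, s, i =>
    if s 1 = none then [(if (i == some true) = b then .acc else .rej, ![.keep, .keep])]
    else [(.h false (xor b false), ![.keep, .pop]), (.h true (xor b true), ![.keep, .pop])]
  | .h b₀ b₁, _, _ => [(.g b₀, ![.push false, .keep]), (.g b₁, ![.push true, .keep])]
  | .acc, _, _ => []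
  | .rej, _, _ => []

/-- the machine for PARITY -/
def pM : AltMachine where
  Q := PSt
  finQ := inferInstance
  k := 1
  start := .init
  mode := pmode
  step := pstep

/-- configurations with two stacks -/
def cfg (q : PSt) (a c : List Bool) : pM.Q × (Fin (pM.k + 1) → List Bool) :=
  (q, (![a, c] : Fin 2 → List Bool))

theorem ops_run (o₀ o₁ : Op) (a c : List Bool) :
    (fun i => ((![o₀, o₁] : Fin 2 → Op) i).run ((![a, c] : Fin 2 → List Bool) i)) =
      ![o₀.run a, o₁.run c] := by
  funext i
  fin_cases i <;> rfl

theorem succ_init (x : List Bool) (a c : List Bool) :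
    pM.succ x (cfg .init a c) = [cfg .s1 (true :: a) c] := by
  show [(PSt.s1, fun i => ((![Op.push true, Op.keep] : Fin 2 → Op) i).run
    ((![a, c] : Fin 2 → List Bool) i))] = _
  rw [ops_run]; rfl

theorem succ_s1_some (x : List Bool) (a c : List Bool) (h : idx a < x.length) :
    pM.succ x (cfg .s1 a c) = [cfg .s1 (false :: a) (false :: c)] := by
  have h1 : x[idx a]? = some x[idx a] := List.getElem?_eq_getElem h
  show (pstep .s1 _ x[idx a]?).map (fun p : PSt × (Fin 2 → Op) =>
    (p.1, fun i => (p.2 i).run ((![a, c] : Fin 2 → List Bool) i))) = _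
  rw [h1]
  simp only [pstep, List.map_cons, List.map_nil]
  rw [ops_run]; rfl

theorem succ_s1_none (x : List Bool) (a c : List Bool) (h : x.length ≤ idx a) :
    pM.succ x (cfg .s1 a c) = [cfg .s2 a c] := by
  have h1 : x[idx a]? = none := List.getElem?_eq_none h
  show (pstep .s1 _ x[idx a]?).map (fun p : PSt × (Fin 2 → Op) =>
    (p.1, fun i => (p.2 i).run ((![a, c] : Fin 2 → List Bool) i))) = _
  rw [h1]
  simp only [pstep, List.map_cons, List.map_nil]
  rw [ops_run]; rfl

theorem succ_s2_nil (x : List Bool) (c : List Bool) :
    pM.succ x (cfg .s2 [] c) = [cfg (.g true) [] c] := by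
  show [(PSt.g true, fun i => ((![Op.keep, Op.keep] : Fin 2 → Op) i).run
    ((![[], c] : Fin 2 → List Bool) i))] = _
  rw [ops_run]; rfl

theorem succ_s2_cons (x : List Bool) (b : Bool) (a c : List Bool) :
    pM.succ x (cfg .s2 (b :: a) c) = [cfg .s2 a c] := by
  show [(PSt.s2, fun i => ((![Op.pop, Op.keep] : Fin 2 → Op) i).run
    ((![b :: a, c] : Fin 2 → List Bool) i))] = _
  rw [ops_run]; rfl

theorem succ_g_nil (x : List Bool) (b : Bool) (a : List Bool) :
    pM.succ x (cfg (.g b) a []) = [cfg (if (x[idx a]? == some true) = b then .acc else .rej) a []] := by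
  show [((if (x[idx a]? == some true) = b then PSt.acc else PSt.rej), fun i =>
    ((![Op.keep, Op.keep] : Fin 2 → Op) i).run ((![a, []] : Fin 2 → List Bool) i))] = _
  rw [ops_run]; rfl

theorem succ_g_cons (x : List Bool) (b d : Bool) (a c : List Bool) :
    pM.succ x (cfg (.g b) a (d :: c)) =
      [cfg (.h false (xor b false)) a c, cfg (.h true (xor b true)) a c] := by
  show [(PSt.h false (xor b false), fun i => ((![Op.keep, Op.pop] : Fin 2 → Op) i).run
    ((![a, d :: c] : Fin 2 → List Bool) i)), (PSt.h true (xor b true), fun i =>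
    ((![Op.keep, Op.pop] : Fin 2 → Op) i).run ((![a, d :: c] : Fin 2 → List Bool) i))] = _
  rw [ops_run]; rfl

theorem succ_h (x : List Bool) (b₀ b₁ : Bool) (a c : List Bool) :
    pM.succ x (cfg (.h b₀ b₁) a c) = [cfg (.g b₀) (false :: a) c, cfg (.g b₁) (true :: a) c] := by
  show [(PSt.g b₀, fun i => ((![Op.push false, Op.keep] : Fin 2 → Op) i).run
    ((![a, c] : Fin 2 → List Bool) i)), (PSt.g b₁, fun i =>
    ((![Op.push true, Op.keep] : Fin 2 → Op) i).run ((![a, c] : Fin 2 → List Bool) i))] = _
  rw [ops_run, ops_run]; rfl

theorem acc_any (x : List Bool) (t : ℕ) (q : PSt) (a c : List Bool) (hq : pmode q = .any) :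
    pM.AcceptsIn x (t + 1) (cfg q a c) ↔ ∃ c' ∈ pM.succ x (cfg q a c), pM.AcceptsIn x t c' := by
  rw [AltMachine.AcceptsIn]
  have : pM.mode (cfg q a c).1 = .any := hq
  rw [this]

theorem acc_all (x : List Bool) (t : ℕ) (q : PSt) (a c : List Bool) (hq : pmode q = .all) :
    pM.AcceptsIn x (t + 1) (cfg q a c) ↔ ∀ c' ∈ pM.succ x (cfg q a c), pM.AcceptsIn x t c' := by
  rw [AltMachine.AcceptsIn]
  have : pM.mode (cfg q a c).1 = .all := hq
  rw [this]

theorem acc_det (x : List Bool) (t : ℕ) (q : PSt) (a c : List Bool) (hq : pmode q = .any)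
    (c' : pM.Q × (Fin (pM.k + 1) → List Bool)) (h : pM.succ x (cfg q a c) = [c']) :
    pM.AcceptsIn x (t + 1) (cfg q a c) ↔ pM.AcceptsIn x t c' := by
  rw [acc_any x t q a c hq, h]
  simp

/-- the parity of a block of the input -/
def par (x : List Bool) : ℕ → ℕ → Bool
  | a, 0 => x[a]? == some true
  | a, r + 1 => xor (par x (2 * a) r) (par x (2 * a + 1) r)

theorem acc_acc (x : List Bool) (t : ℕ) (a c : List Bool) : pM.AcceptsIn x t (cfg .acc a c) := by
  cases t with
  | zero => rfl
  | succ t =>
    rw [AltMachine.AcceptsIn]
    have : pM.mode (cfg .acc a c).1 = .accept := rfl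
    rw [this]
    trivial

theorem acc_rej (x : List Bool) (t : ℕ) (a c : List Bool) : ¬ pM.AcceptsIn x t (cfg .rej a c) := by
  cases t with
  | zero => intro h; exact Mode.noConfusion h
  | succ t =>
    rw [AltMachine.AcceptsIn]
    have : pM.mode (cfg .rej a c).1 = .reject := rfl
    rw [this]
    exact fun h => h

theorem game (x : List Bool) (r : ℕ) : ∀ (b : Bool) (a c : List Bool), c.length = r →
    (par x (idx a) r = b → pM.AcceptsIn x (2 * r + 1) (cfg (.g b) a c)) ∧
    (par x (idx a) r ≠ b → ∀ t, ¬ pM.AcceptsIn x t (cfg (.g b) a c)) := by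
  induction r with
  | zero =>
    intro b a c hc
    obtain rfl : c = [] := List.length_eq_zero_iff.1 hc
    constructor
    · intro h
      rw [acc_det x _ (.g b) a [] rfl _ (succ_g_nil x b a)]
      have h1 : (x[idx a]? == some true) = b := h
      rw [if_pos h1]
      exact acc_acc x _ a []
    · intro h t ht
      have h1 := pM.acceptsIn_succ x t _ ht
      rw [acc_det x _ (.g b) a [] rfl _ (succ_g_nil x b a)] at h1
      have h2 : ¬ (x[idx a]? == some true) = b := h
      rw [if_neg h2] at h1
      exact acc_rej x _ a [] h1
  | succ r ih =>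
    intro b a c hc
    obtain ⟨d, c, rfl⟩ : ∃ d c', c = d :: c' := by
      cases c with
      | nil => simp at hc
      | cons d c => exact ⟨d, c, rfl⟩
    have hc' : c.length = r := by simpa using hc
    have key : ∀ t, pM.AcceptsIn x (t + 2) (cfg (.g b) a (d :: c)) ↔
        ∃ b₀, pM.AcceptsIn x t (cfg (.g b₀) (false :: a) c) ∧
          pM.AcceptsIn x t (cfg (.g (xor b b₀)) (true :: a) c) := by
      intro t
      rw [acc_any x _ (.g b) a _ rfl, succ_g_cons]
      simp only [List.mem_cons, List.not_mem_nil, or_false, exists_eq_or_imp, exists_eq_left]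
      rw [acc_all x t _ a c rfl, acc_all x t _ a c rfl, succ_h, succ_h]
      simp only [List.mem_cons, List.not_mem_nil, or_false, forall_eq_or_imp, forall_eq,
        Bool.exists_bool]
    have hi0 : idx (false :: a) = 2 * idx a := by simp [idx]
    have hi1 : idx (true :: a) = 2 * idx a + 1 := by simp [idx, add_comm]
    constructor
    · intro h
      rw [show 2 * (r + 1) + 1 = (2 * r + 1) + 2 by ring, key]
      refine ⟨par x (2 * idx a) r, (ih _ _ _ hc').1 (by rw [hi0]), (ih _ _ _ hc').1 ?_⟩
      rw [hi1, ← h, par]
      cases par x (2 * idx a) r <;> cases par x (2 * idx a + 1) r <;> rfl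
    · intro h t ht
      have h1 := pM.acceptsIn_mono x (show t ≤ t + 2 by omega) _ ht
      rw [key] at h1
      obtain ⟨b₀, h2, h3⟩ := h1
      have h4 : par x (2 * idx a) r = b₀ := by
        by_contra hne
        exact (ih b₀ (false :: a) c hc').2 (by rw [hi0]; exact hne) _ h2
      have h5 : par x (2 * idx a + 1) r = xor b b₀ := by
        by_contra hne
        exact (ih _ (true :: a) c hc').2 (by rw [hi1]; exact hne) _ h3
      apply h
      rw [par, h4, h5]
      cases b <;> cases b₀ <;> rfl

theorem phase2 (x : List Bool) (t : ℕ) (c : List Bool) : ∀ a : List Bool,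
    pM.AcceptsIn x (t + a.length + 1) (cfg .s2 a c) ↔ pM.AcceptsIn x t (cfg (.g true) [] c) := by
  intro a
  induction a with
  | nil => exact acc_det x t .s2 [] c rfl _ (succ_s2_nil x c)
  | cons b a ih =>
    rw [← ih, List.length_cons, ← add_assoc]
    exact acc_det x _ .s2 _ c rfl _ (succ_s2_cons x b a c)

theorem idx_replicate (j : ℕ) : idx (List.replicate j false ++ [true]) = 2 ^ j := by
  induction j with
  | zero => rfl
  | succ j ih =>
    rw [List.replicate_succ, List.cons_append, idx, ih, pow_succ]
    simp [mul_comm]

theorem phase1 (x : List Bool) (t k : ℕ) (hk : ∀ j < k, 2 ^ j < x.length) : ∀ j ≤ k,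
    (pM.AcceptsIn x (t + (k - j)) (cfg .s1 (List.replicate j false ++ [true])
      (List.replicate j false)) ↔
    pM.AcceptsIn x t (cfg .s1 (List.replicate k false ++ [true]) (List.replicate k false))) := by
  intro j hj
  obtain ⟨i, rfl⟩ := Nat.exists_eq_add_of_le hj
  clear hj
  induction i generalizing j with
  | zero => simp
  | succ i ih =>
    have h1 : pM.succ x (cfg .s1 (List.replicate j false ++ [true]) (List.replicate j false)) =
        [cfg .s1 (List.replicate (j + 1) false ++ [true]) (List.replicate (j + 1) false)] := by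
      rw [succ_s1_some x _ _ (by rw [idx_replicate]; exact hk j (by omega))]
      rfl
    rw [show t + (j + (i + 1) - j) = (t + i) + 1 by omega, acc_det x _ .s1 _ _ rfl _ h1]
    have h2 := ih (j + 1) (fun l hl => hk l (by omega))
    rw [show t + (j + 1 + i - (j + 1)) = t + i by omega] at h2
    rw [h2, show j + 1 + i = j + (i + 1) by ring]

theorem whole (x : List Bool) (t k : ℕ) (hk : ∀ j < k, 2 ^ j < x.length) (hk' : x.length ≤ 2 ^ k) :
    pM.AcceptsIn x (t + (k + 1) + 1 + 1 + k + 1) pM.init ↔
      pM.AcceptsIn x t (cfg (.g true) [] (List.replicate k false)) := by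
  have h0 : pM.init = cfg .init [] [] := by
    unfold AltMachine.init cfg
    refine Prod.ext rfl ?_
    funext i
    have : i = 0 ∨ i = 1 := by
      have := i.2
      have hk : pM.k = 1 := rfl
      rcases Nat.lt_or_ge i.1 1 with h | h
      · left; exact Fin.ext (by simpa using h)
      · right; exact Fin.ext (by have : i.1 < 2 := i.2; show i.1 = 1; omega)
    rcases this with rfl | rfl <;> rfl
  rw [h0, acc_det x _ .init [] [] rfl _ (succ_init x [] [])]
  have h1 := phase1 x (t + (k + 1) + 1 + 1) k hk 0 (Nat.zero_le _)
  rw [Nat.sub_zero] at h1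
  have h2 : cfg .s1 [true] [] = cfg .s1 (List.replicate 0 false ++ [true]) (List.replicate 0 false) :=
    rfl
  rw [h2, h1, acc_det x _ .s1 _ _ rfl _ (succ_s1_none x _ _ (by rw [idx_replicate]; exact hk'))]
  have h3 := phase2 x t (List.replicate k false) (List.replicate k false ++ [true])
  rw [List.length_append, List.length_replicate, List.length_singleton] at h3
  exact h3

/-- indicator of a one -/
def ion (x : List Bool) (i : ℕ) : ℕ := if x[i]? = some true then 1 else 0

theorem par_eq (x : List Bool) (r : ℕ) : ∀ a, par x a r = true ↔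
    Odd (∑ i ∈ Finset.range (2 ^ r), ion x (a * 2 ^ r + i)) := by
  induction r with
  | zero =>
    intro a
    simp only [par, pow_zero, Finset.range_one, Finset.sum_singleton, mul_one, add_zero, ion]
    by_cases h : x[a]? = some true <;> simp [h]
  | succ r ih =>
    intro a
    rw [par, pow_succ, mul_two, Finset.sum_range_add]
    have e1 : ∑ i ∈ Finset.range (2 ^ r), ion x (a * (2 ^ r + 2 ^ r) + i) =
        ∑ i ∈ Finset.range (2 ^ r), ion x (2 * a * 2 ^ r + i) := by
      refine Finset.sum_congr rfl fun i _ => ?_
      congr 1; ring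
    have e2 : ∑ i ∈ Finset.range (2 ^ r), ion x (a * (2 ^ r + 2 ^ r) + (2 ^ r + i)) =
        ∑ i ∈ Finset.range (2 ^ r), ion x ((2 * a + 1) * 2 ^ r + i) := by
      refine Finset.sum_congr rfl fun i _ => ?_
      congr 1; ring
    rw [e1, e2, Nat.odd_add, ← ih (2 * a), ← Nat.not_odd_iff_even, ← ih (2 * a + 1)]
    cases par x (2 * a) r <;> cases par x (2 * a + 1) r <;> simp

theorem sum_ion (x : List Bool) : ∀ N, x.length ≤ N → ∑ i ∈ Finset.range N, ion x i = x.count true := by
  induction x with
  | nil =>
    intro N _
    simp [ion]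
  | cons a x ih =>
    intro N hN
    obtain ⟨N, rfl⟩ : ∃ N', N = N' + 1 := ⟨N - 1, by simp at hN; omega⟩
    rw [Finset.sum_range_succ']
    have e1 : ∀ i, ion (a :: x) (i + 1) = ion x i := fun i => by simp [ion]
    simp only [e1]
    rw [ih N (by simp at hN; omega), List.count_cons]
    simp [ion]

theorem parity_mem : PARITY ∈ ALOGTIME := by
  refine ⟨pM, 10, fun x => ?_⟩
  set k := Nat.clog 2 x.length with hk
  have hk1 : x.length ≤ 2 ^ k := Nat.le_pow_clog (by norm_num) _
  have hk2 : ∀ j < k, 2 ^ j < x.length := by
    intro j hj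
    by_contra h
    have := Nat.clog_le_of_le_pow (b := 2) (not_lt.1 h)
    omega
  have hk3 : k ≤ Nat.log 2 x.length + 1 := by
    refine Nat.clog_le_of_le_pow ?_
    exact (Nat.lt_pow_succ_log_self (by norm_num) _).le
  have hpar : par x (idx []) k = true ↔ x ∈ PARITY := by
    rw [par_eq]
    show Odd (∑ i ∈ Finset.range (2 ^ k), ion x (0 * 2 ^ k + i)) ↔ Odd (x.count true)
    simp only [zero_mul, zero_add]
    rw [sum_ion x _ hk1]
  have hg := game x k true [] (List.replicate k false) (List.length_replicate ..)
  constructor
  · intro hx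
    have h1 := hg.1 (hpar.2 hx)
    rw [← whole x _ k hk2 hk1] at h1
    refine pM.acceptsIn_mono x ?_ _ h1
    omega
  · intro hx t ht
    have h1 := hg.2 (fun h => hx (hpar.1 h)) t
    rw [← whole x _ k hk2 hk1] at h1
    exact h1 (pM.acceptsIn_mono x (by omega) _ ht)

end H462R3.WP
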