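import Pool.Agent.H462R3.WP.Top
import Pool.Agent.H746R3.Inv.Approx

/-!
# Low degree approximation of triviality (helper462)
-/

namespace H462R3.WP

open Finset H746R3.Inv

set_option maxHeartbeats 400000

theorem zmod3_sq : ∀ a : ZMod 3, (a ^ 2 = 0 ∨ a ^ 2 = 1) ∧ (a ≠ 0 → a ^ 2 = 1) := by decide
theorem zmod3_ind : ∀ a c : ZMod 3, (if a = c then (1 : ZMod 3) else 0) = 1 - (a - c) ^ 2 := by
  decide

variable {V : Type} [Fintype V] [DecidableEq V]

/-- functions on the cube with values in the field with three elements -/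
abbrev P3 (V : Type) := (V → Bool) → ZMod 3

/-- a condition described by polynomial equations -/
def Cnd (ℓ D U : ℕ) (Φ : (V → Bool) → Prop) : Prop :=
  ∃ (ι : Type) (_ : Fintype ι) (P : ι → P3 V), (∀ i, P i ∈ LD (ZMod 3) V D) ∧
    ∃ E : Finset (V → Bool), E.card * 3 ^ ℓ ≤ U * Fintype.card (V → Bool) ∧
      ∀ x, x ∉ E → (Φ x ↔ ∀ i, P i x = 0)

/-- approximation of a function -/
def Apx (ℓ D U : ℕ) (F : P3 V) : Prop :=
  ∃ Q ∈ LD (ZMod 3) V D,
    ∃ E : Finset (V → Bool), E.card * 3 ^ ℓ ≤ U * Fintype.card (V → Bool) ∧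
      ∀ x, x ∉ E → Q x = F x

theorem Cnd.mono {ℓ D U D' U' : ℕ} {Φ : (V → Bool) → Prop} (h : Cnd ℓ D U Φ) (hD : D ≤ D')
    (hU : U ≤ U') : Cnd ℓ D' U' Φ := by
  obtain ⟨ι, hι, P, hP, E, hE, h1⟩ := h
  exact ⟨ι, hι, P, fun i => LD_mono hD (hP i), E, hE.trans (Nat.mul_le_mul_right _ hU), h1⟩

omit [DecidableEq V] in
theorem Cnd.congr [DecidableEq V] {ℓ D U : ℕ} {Φ Φ' : (V → Bool) → Prop} (h : Cnd ℓ D U Φ)
    (hh : ∀ x, Φ' x ↔ Φ x) : Cnd ℓ D U Φ' := by
  have : Φ' = Φ := funext fun x => propext (hh x)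
  rw [this]; exact h

theorem Apx.mono {ℓ D U D' U' : ℕ} {F : P3 V} (h : Apx ℓ D U F) (hD : D ≤ D')
    (hU : U ≤ U') : Apx ℓ D' U' F := by
  obtain ⟨Q, hQ, E, hE, h1⟩ := h
  exact ⟨Q, LD_mono hD hQ, E, hE.trans (Nat.mul_le_mul_right _ hU), h1⟩

theorem Apx.exact {ℓ D : ℕ} {F : P3 V} (h : F ∈ LD (ZMod 3) V D) : Apx ℓ D 0 F :=
  ⟨F, h, ∅, by simp, fun _ _ => rfl⟩

theorem Apx.mul {ℓ D U D' U' : ℕ} {F F' : P3 V} (h : Apx ℓ D U F) (h' : Apx ℓ D' U' F') :
    Apx ℓ (D + D') (U + U') (fun x => F x * F' x) := by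
  obtain ⟨Q, hQ, E, hE, h1⟩ := h
  obtain ⟨Q', hQ', E', hE', h1'⟩ := h'
  refine ⟨Q * Q', mul_mem hQ hQ', E ∪ E', ?_, ?_⟩
  · calc (E ∪ E').card * 3 ^ ℓ ≤ (E.card + E'.card) * 3 ^ ℓ :=
          Nat.mul_le_mul_right _ (card_union_le _ _)
      _ = E.card * 3 ^ ℓ + E'.card * 3 ^ ℓ := by ring
      _ ≤ _ := Nat.add_le_add hE hE'
      _ = _ := by ring
  · intro x hx
    rw [mem_union, not_or] at hx
    rw [Pi.mul_apply, h1 x hx.1, h1' x hx.2]

theorem Apx.sum {ℓ D : ℕ} {ι : Type*} (s : Finset ι) (U : ι → ℕ) (F : ι → P3 V)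
    (h : ∀ i ∈ s, Apx ℓ D (U i) (F i)) : Apx ℓ D (∑ i ∈ s, U i) (fun x => ∑ i ∈ s, F i x) := by
  classical
  induction s using Finset.induction_on with
  | empty =>
    refine Apx.exact ?_
    simp only [sum_empty]
    exact Submodule.zero_mem _
  | insert i s hi ih =>
    obtain ⟨Q, hQ, E, hE, h1⟩ := h i (mem_insert_self _ _)
    obtain ⟨Q', hQ', E', hE', h1'⟩ := ih fun j hj => h j (mem_insert_of_mem hj)
    refine ⟨Q + Q', Submodule.add_mem _ hQ hQ', E ∪ E', ?_, ?_⟩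
    · rw [sum_insert hi]
      calc (E ∪ E').card * 3 ^ ℓ ≤ (E.card + E'.card) * 3 ^ ℓ :=
          Nat.mul_le_mul_right _ (card_union_le _ _)
      _ = E.card * 3 ^ ℓ + E'.card * 3 ^ ℓ := by ring
      _ ≤ _ := Nat.add_le_add hE hE'
      _ = _ := by ring
    · intro x hx
      rw [mem_union, not_or] at hx
      beta_reduce
      rw [Pi.add_apply, h1 x hx.1, h1' x hx.2, sum_insert hi]

theorem Cnd.of_apx {ℓ D U : ℕ} {F : P3 V} (h : Apx ℓ D U F) : Cnd ℓ D U (fun x => F x = 0) := by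
  obtain ⟨Q, hQ, E, hE, h1⟩ := h
  refine ⟨Unit, inferInstance, fun _ => Q, fun _ => hQ, E, hE, fun x hx => ?_⟩
  beta_reduce
  rw [h1 x hx]
  exact ⟨fun h _ => h, fun h => h ()⟩

theorem Cnd.exact {ℓ D : ℕ} {F : P3 V} (h : F ∈ LD (ZMod 3) V D) :
    Cnd ℓ D 0 (fun x => F x = 0) := Cnd.of_apx (Apx.exact h)

theorem Cnd.and {ℓ D U U' : ℕ} {Φ Φ' : (V → Bool) → Prop} (h : Cnd ℓ D U Φ) (h' : Cnd ℓ D U' Φ') :
    Cnd ℓ D (U + U') (fun x => Φ x ∧ Φ' x) := by
  obtain ⟨ι, hι, P, hP, E, hE, h1⟩ := h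
  obtain ⟨ι', hι', P', hP', E', hE', h1'⟩ := h'
  refine ⟨ι ⊕ ι', inferInstance, Sum.elim P P', ?_, E ∪ E', ?_, ?_⟩
  · rintro (i | i)
    · exact hP i
    · exact hP' i
  · calc (E ∪ E').card * 3 ^ ℓ ≤ (E.card + E'.card) * 3 ^ ℓ :=
          Nat.mul_le_mul_right _ (card_union_le _ _)
      _ = E.card * 3 ^ ℓ + E'.card * 3 ^ ℓ := by ring
      _ ≤ _ := Nat.add_le_add hE hE'
      _ = _ := by ring
  · intro x hx
    rw [mem_union, not_or] at hx
    beta_reduce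
    rw [h1 x hx.1, h1' x hx.2, Sum.forall]
    rfl

theorem Cnd.all {ℓ D : ℕ} {κ : Type} [Fintype κ] (U : κ → ℕ) (Φ : κ → (V → Bool) → Prop)
    (h : ∀ k, Cnd ℓ D (U k) (Φ k)) : Cnd ℓ D (∑ k, U k) (fun x => ∀ k, Φ k x) := by
  classical
  choose ι hι P hP E hE h1 using h
  refine ⟨Σ k, ι k, inferInstance, fun i => P i.1 i.2, fun i => hP _ _, univ.biUnion E, ?_, ?_⟩
  · calc (univ.biUnion E).card * 3 ^ ℓ ≤ (∑ k, (E k).card) * 3 ^ ℓ :=
          Nat.mul_le_mul_right _ card_biUnion_le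
      _ = ∑ k, (E k).card * 3 ^ ℓ := by rw [sum_mul]
      _ ≤ ∑ k, U k * Fintype.card (V → Bool) := sum_le_sum fun k _ => hE k
      _ = _ := by rw [sum_mul]
  · intro x hx
    rw [mem_biUnion] at hx
    push Not at hx
    constructor
    · rintro h ⟨k, i⟩
      exact (h1 k x (hx k (mem_univ _))).1 (h k) i
    · intro h k
      exact (h1 k x (hx k (mem_univ _))).2 fun i => h ⟨k, i⟩

open Classical in
theorem Cnd.nor {ℓ D U : ℕ} {Φ : (V → Bool) → Prop} (h : Cnd ℓ D U Φ) :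
    Apx ℓ (4 * ℓ * D) (U + 1) (fun x => if Φ x then 1 else 0) := by
  obtain ⟨ι, hι, P, hP, E, hE, h1⟩ := h
  haveI : Fact (Nat.Prime 3) := ⟨Nat.prime_three⟩
  obtain ⟨q, hq, E', hE', hq1, hq0⟩ := nor_approx (p := 3) (K := ZMod 3) (univ : Finset (V → Bool))
    (2 * D) ℓ (fun i => P i ^ 2) (fun i => pow_mem' (hP i) 2)
  refine ⟨q, LD_mono (by ring_nf; exact le_refl _) hq, E ∪ E', ?_, ?_⟩
  · calc (E ∪ E').card * 3 ^ ℓ ≤ (E.card + E'.card) * 3 ^ ℓ :=
          Nat.mul_le_mul_right _ (card_union_le _ _)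
      _ = E.card * 3 ^ ℓ + E'.card * 3 ^ ℓ := by ring
      _ ≤ U * Fintype.card (V → Bool) + Fintype.card (V → Bool) :=
        Nat.add_le_add hE (hE'.trans (by rw [card_univ]))
      _ = _ := by ring
  · intro x hx
    rw [mem_union, not_or] at hx
    have hsq := zmod3_sq
    beta_reduce
    split_ifs with hΦ
    · refine hq1 x fun i => ?_
      rw [Pi.pow_apply, (h1 x hx.1).1 hΦ i]
      rfl
    · refine hq0 x (mem_univ _) hx.2 (fun i => (hsq _).1) ?_
      rw [h1 x hx.1] at hΦ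
      push Not at hΦ
      obtain ⟨i, hi⟩ := hΦ
      exact ⟨i, (hsq _).2 hi⟩

/-! ### Words depending on the input -/

def wd (W : ℕ → Fin 5 → P3 V) (x : V → Bool) : ℕ → Letter := fun t k => W t k x

theorem ind_mem {f : P3 V} {d : ℕ} (hf : f ∈ LD (ZMod 3) V d) (c : ZMod 3) :
    (fun x => if f x = c then (1 : ZMod 3) else 0) ∈ LD (ZMod 3) V (2 * d) := by
  have h1 := zmod3_ind
  have h2 : (fun x => if f x = c then (1 : ZMod 3) else 0) = 1 - (f - fun _ => c) ^ 2 := by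
    funext x
    rw [h1]; rfl
  rw [h2]
  exact Submodule.sub_mem _ (one_mem _) (pow_mem' (Submodule.sub_mem _ hf (const_mem c d)) 2)

section
variable {M : ℕ} {W : ℕ → Fin 5 → P3 V} {D : ℕ} (hW : ∀ t k, W t k ∈ LD (ZMod 3) V D)
include hW

theorem pos_mem (q : Pos M) (i : ℕ) (j : Fin (M + 1)) :
    (fun x => pos (wd W x) q i j) ∈ LD (ZMod 3) V (((j : ℕ) + 1) * D) := by
  induction i generalizing j with
  | zero => exact const_mem _ _
  | succ i ih =>
    by_cases h0 : (j : ℕ) = 0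
    · have h1 : (fun x => pos (wd W x) q (i + 1) j) =
          (fun x => pos (wd W x) q i j) + W i 0 := by
        funext x
        simp only [pos, updPos, if_pos h0, Pi.add_apply]
        rfl
      rw [h1]
      refine Submodule.add_mem _ (ih j) (LD_mono ?_ (hW i 0))
      nlinarith
    · have hj : (j : ℕ) - 1 < M + 1 := by omega
      set l : Fin 5 := if (j : ℕ) % 2 = 1 then 1 else 2 with hl
      have h1 : (fun x => pos (wd W x) q (i + 1) j) =
          (fun x => pos (wd W x) q i j) + (W i l) *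
              (fun x => pos (wd W x) q i ⟨(j : ℕ) - 1, hj⟩) := by
        funext x
        simp only [pos, updPos, if_neg h0, Pi.add_apply, Pi.mul_apply]
        congr 2
        rw [hl]
        split_ifs <;> rfl
      rw [h1]
      have h4 : (fun x => pos (wd W x) q i ⟨(j : ℕ) - 1, hj⟩) ∈
          LD (ZMod 3) V (((j : ℕ) - 1 + 1) * D) := ih ⟨(j : ℕ) - 1, hj⟩
      have h3 : (W i l) * (fun x => pos (wd W x) q i ⟨(j : ℕ) - 1, hj⟩) ∈
        LD (ZMod 3) V (D + ((j : ℕ) - 1 + 1) * D) := mul_mem (hW i l) h4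
      have h2 : D + ((j : ℕ) - 1 + 1) * D ≤ ((j : ℕ) + 1) * D := by
        rw [show (j : ℕ) - 1 + 1 = j by omega]
        apply le_of_eq; ring
      exact Submodule.add_mem _ (ih j) (LD_mono h2 h3)

theorem indpos_mem (q o : Pos M) (i : ℕ) :
    (fun x => if pos (wd W x) q i = o then (1 : ZMod 3) else 0) ∈
      LD (ZMod 3) V (2 * (M + 1) ^ 2 * D) := by
  have h1 : (fun x => if pos (wd W x) q i = o then (1 : ZMod 3) else 0) =
      ∏ j : Fin (M + 1), (fun x => if pos (wd W x) q i j = o j then (1 : ZMod 3) else 0) := by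
    funext x
    rw [Finset.prod_apply, Finset.prod_ite_zero]
    simp [funext_iff]
  rw [h1]
  refine LD_mono ?_ (prod_mem' univ _ (fun _ => 2 * ((M + 1) * D)) fun j _ => ?_)
  · rw [sum_const, card_univ, Fintype.card_fin, smul_eq_mul]
    nlinarith
  · refine ind_mem (LD_mono ?_ (pos_mem hW q i j)) _
    exact Nat.mul_le_mul_right _ (by omega)

theorem lam_mem (q o : Pos M) (i : ℕ) :
    (fun x => lam (wd W x) q i o) ∈ LD (ZMod 3) V ((1 + 2 * (M + 1) ^ 2) * D) := by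
  have h1 : (fun x => lam (wd W x) q i o) =
      ∑ t ∈ range i, (fun x => if pos (wd W x) q t = o then (1 : ZMod 3) else 0) * W t 3 := by
    funext x
    rw [Finset.sum_apply]
    simp only [lam, Pi.mul_apply]
    refine sum_congr rfl fun t _ => ?_
    rw [ite_mul, one_mul, zero_mul]
    rfl
  rw [h1]
  refine Submodule.sum_mem _ fun t _ => LD_mono ?_ (mul_mem (indpos_mem hW q o t) (hW t 3))
  nlinarith

theorem ret_cnd (ℓ n : ℕ) :
    Cnd ℓ ((1 + 2 * (M + 1) ^ 2) * D) 0 (fun x => ret M (wd W x) n) := by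
  have h1 : Cnd ℓ ((1 + 2 * (M + 1) ^ 2) * D) (∑ _j : Fin (M + 1), 0)
      (fun x => ∀ j : Fin (M + 1), pos (wd W x) (0 : Pos M) n j = 0) := by
    refine Cnd.all (fun _ => 0) (fun (j : Fin (M + 1)) x => pos (wd W x) (0 : Pos M) n j = 0) ?_
    intro j
    refine (Cnd.exact (pos_mem hW (0 : Pos M) n j)).mono ?_ le_rfl
    refine Nat.mul_le_mul_right _ ?_
    have := j.2
    nlinarith
  have h2 : Cnd ℓ ((1 + 2 * (M + 1) ^ 2) * D) (∑ _j : Pos M, 0)
      (fun x => ∀ o : Pos M, lam (wd W x) (0 : Pos M) n o = 0) := by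
    refine Cnd.all (fun _ => 0) (fun (o : Pos M) x => lam (wd W x) (0 : Pos M) n o = 0) ?_
    intro o
    exact Cnd.exact (lam_mem hW (0 : Pos M) o n)
  refine ((h1.and h2).mono le_rfl (by simp)).congr fun x => ?_
  unfold ret
  rw [funext_iff]
  rfl

theorem fix_cnd (ℓ n : ℕ) :
    Cnd ℓ ((1 + 2 * (M + 1) ^ 2) * D) 0 (fun x => (∀ q : Pos M, pos (wd W x) q n = q) ∧
      ∀ (q : Pos M) (o), lam (wd W x) q n o = 0) := by
  have h1 : Cnd ℓ ((1 + 2 * (M + 1) ^ 2) * D) (∑ _j : Pos M × Fin (M + 1), 0)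
      (fun x => ∀ j : Pos M × Fin (M + 1), pos (wd W x) j.1 n j.2 - j.1 j.2 = 0) := by
    refine Cnd.all (fun _ => 0) (fun (j : Pos M × Fin (M + 1)) x =>
      pos (wd W x) j.1 n j.2 - j.1 j.2 = 0) ?_
    rintro ⟨q, j⟩
    refine (Cnd.exact (D := (M + 1) * D) ?_).mono ?_ le_rfl
    · refine Submodule.sub_mem _ (LD_mono ?_ (pos_mem hW q n j)) (const_mem _ _)
      exact Nat.mul_le_mul_right _ (by omega)
    · refine Nat.mul_le_mul_right _ ?_
      nlinarith
  have h2 : Cnd ℓ ((1 + 2 * (M + 1) ^ 2) * D) (∑ _j : Pos M × Pos M, 0)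
      (fun x => ∀ o : Pos M × Pos M, lam (wd W x) o.1 n o.2 = 0) := by
    refine Cnd.all (fun _ => 0) (fun (o : Pos M × Pos M) x => lam (wd W x) o.1 n o.2 = 0) ?_
    intro o
    exact Cnd.exact (lam_mem hW o.1 o.2 n)
  refine ((h1.and h2).mono le_rfl (by simp)).congr fun x => ?_
  constructor
  · rintro ⟨h3, h4⟩
    exact ⟨fun j => by rw [h3]; simp, fun o => h4 _ _⟩
  · rintro ⟨h3, h4⟩
    exact ⟨fun q => funext fun j => sub_eq_zero.1 (h3 (q, j)), fun q o => h4 (q, o)⟩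

theorem FF_apx (ℓ n a : ℕ) :
    Apx ℓ (4 * ℓ * ((1 + 2 * (M + 1) ^ 2) * D) + D) n (fun x => FF M (wd W x) n a) := by
  classical
  have h1 : ∀ i ∈ range n, Apx ℓ (4 * ℓ * ((1 + 2 * (M + 1) ^ 2) * D) + D) 1
      (fun x => if ret M (sh (min i a) (wd W x)) (max i a - min i a) then wd W x i 4 else 0) := by
    intro i _
    have h2 := (ret_cnd (M := M) (W := fun t => W (min i a + t)) (fun t k => hW _ k) ℓ
      (max i a - min i a)).nor
    have h3 := (h2.mul (Apx.exact (ℓ := ℓ) (hW i 4))).mono le_rfl (le_refl (0 + 1 + 0))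
    refine (congrArg (Apx ℓ _ _) ?_).mp h3
    funext x
    rw [ite_mul, one_mul, zero_mul]
    rfl
  have h2 := Apx.sum (range n) (fun _ => 1) _ h1
  simp only [sum_const, card_range, smul_eq_mul, mul_one] at h2
  exact h2

theorem top_cnd {m : ℕ → ℕ} (hm : ∀ i, 2 ≤ m i) (ℓ n : ℕ) (hℓ : 1 ≤ ℓ) (hn : n < 3 ^ m 0) :
    Cnd ℓ (13 * ℓ * (m 0 + 1) ^ 2 * D) (n ^ 2) (fun x => Triv m (wd W x) n) := by
  have h1 : Cnd ℓ (13 * ℓ * (m 0 + 1) ^ 2 * D) (∑ _a : Fin n, n)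
      (fun x => ∀ a : Fin n, FF (m 0) (wd W x) n a = 0) := by
    refine Cnd.all (fun _ => n) (fun (a : Fin n) x => FF (m 0) (wd W x) n a = 0) ?_
    intro a
    refine (Cnd.of_apx (FF_apx hW ℓ n a)).mono ?_ le_rfl
    have e1 : 1 ≤ (m 0 + 1) ^ 2 := Nat.one_le_pow _ _ (by omega)
    have e2 : 1 ≤ ℓ * (m 0 + 1) ^ 2 := by nlinarith
    calc 4 * ℓ * ((1 + 2 * (m 0 + 1) ^ 2) * D) + D
        = (4 * ℓ + 8 * (ℓ * (m 0 + 1) ^ 2) + 1) * D := by ring
      _ ≤ (13 * (ℓ * (m 0 + 1) ^ 2)) * D := Nat.mul_le_mul_right _ (by nlinarith)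
      _ = _ := by ring
  have h2 : Cnd ℓ (13 * ℓ * (m 0 + 1) ^ 2 * D) 0 (fun x =>
      (∀ q : Pos (m 0), pos (wd W x) q n = q) ∧
      ∀ (q : Pos (m 0)) (o), lam (wd W x) q n o = 0) := by
    refine (fix_cnd hW ℓ n).mono ?_ le_rfl
    refine Nat.mul_le_mul_right _ ?_
    have e1 : 1 ≤ (m 0 + 1) ^ 2 := Nat.one_le_pow _ _ (by omega)
    nlinarith
  refine ((h2.and h1).mono le_rfl ?_).congr fun x => ?_
  · rw [sum_const, card_univ, Fintype.card_fin, smul_eq_mul]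
    nlinarith
  · rw [triv_top hm _ n hn]
    refine and_congr Iff.rfl ⟨fun h a => h a a.2, fun h a ha => h ⟨a, ha⟩⟩

/-- the degree factor of one level -/
def cc (M : ℕ) : ℕ := 1 + 2 * (M + 1) ^ 2 + 3 ^ (M + 1) * (2 * (1 + 2 * (M + 1) ^ 2))

omit hW in
theorem one_le_cc (M : ℕ) : 1 ≤ cc M := by unfold cc; omega

theorem sec_mem (x₀ : X M) (i : ℕ) (k : Fin 5) :
    (fun x => secw (wd W x) x₀ i k) ∈ LD (ZMod 3) V (cc M * D) := by
  obtain ⟨q, f⟩ := x₀
  have h1 : (fun x => secw (wd W x) (q, f) i k) =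
      ((fun x => if pos (wd W x) q i = 0 then (1 : ZMod 3) else 0) *
        ∏ o : Pos M, (fun x => if f o + lam (wd W x) q i o = al k + be k * o 0 then
          (1 : ZMod 3) else 0)) * W i 4 := by
    funext x
    rw [Pi.mul_apply, Pi.mul_apply, Finset.prod_apply, Finset.prod_ite_zero]
    have h2 : secw (wd W x) (q, f) i k = if (pos (wd W x) q i = 0 ∧
        ∀ o, f o + lam (wd W x) q i o = al k + be k * o 0) then W i 4 x else 0 := by
      simp only [secw, sec]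
      rw [st_eq, spec]
      refine if_congr ?_ rfl rfl
      rw [Prod.ext_iff]
      exact and_congr Iff.rfl funext_iff
    rw [h2, Finset.prod_const_one]
    by_cases h3 : pos (wd W x) q i = 0
    · by_cases h4 : ∀ o, f o + lam (wd W x) q i o = al k + be k * o 0
      · rw [if_pos ⟨h3, h4⟩, if_pos h3, if_pos (fun o _ => h4 o), one_mul, one_mul]
      · rw [if_neg (fun h => h4 h.2), if_pos h3, if_neg (fun h => h4 fun o => h o (mem_univ _)),
          mul_zero, zero_mul]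
    · rw [if_neg (fun h => h3 h.1), if_neg h3, zero_mul, zero_mul]
  rw [h1]
  have h5 : ∀ o : Pos M, (fun x => if f o + lam (wd W x) q i o = al k + be k * o 0 then
          (1 : ZMod 3) else 0) ∈ LD (ZMod 3) V (2 * ((1 + 2 * (M + 1) ^ 2) * D)) := by
    intro o
    have h6 : (fun x => f o + lam (wd W x) q i o) ∈ LD (ZMod 3) V ((1 + 2 * (M + 1) ^ 2) * D) :=
      Submodule.add_mem _ (const_mem _ _) (lam_mem hW q o i)
    exact ind_mem h6 _
  have h7 := prod_mem' (univ : Finset (Pos M)) _ (fun _ => 2 * ((1 + 2 * (M + 1) ^ 2) * D))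
    (fun o _ => h5 o)
  have h8 := mul_mem (mul_mem (indpos_mem hW q 0 i) h7) (hW i 4)
  refine LD_mono ?_ h8
  rw [sum_const, card_univ, Fintype.card_fun, ZMod.card, Fintype.card_fin, smul_eq_mul]
  unfold cc
  apply le_of_eq
  ring

end

theorem lev_cnd (ℓ n : ℕ) (hℓ : 1 ≤ ℓ) (k : ℕ) : ∀ (m : ℕ → ℕ), (∀ i, 2 ≤ m i) →
    ∀ (W : ℕ → Fin 5 → P3 V) (D : ℕ), (∀ t k, W t k ∈ LD (ZMod 3) V D) → n < 3 ^ m k →
    Cnd ℓ (13 * ℓ * (m k + 1) ^ 2 * ((∏ i ∈ range k, cc (m i)) * D))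
      (n ^ 2 * ∏ i ∈ range k, Fintype.card (X (m i))) (fun x => Triv m (wd W x) n) := by
  induction k with
  | zero =>
    intro m hm W D hW hn
    refine (top_cnd hW hm ℓ n hℓ hn).mono ?_ ?_ <;> simp
  | succ k ih =>
    intro m hm W D hW hn
    have h1 : ∀ x₀ : X (m 0), Cnd ℓ
        (13 * ℓ * (m (k + 1) + 1) ^ 2 * ((∏ i ∈ range (k + 1), cc (m i)) * D))
        (n ^ 2 * ∏ i ∈ range k, Fintype.card (X (m (i + 1))))
        (fun x => Triv (fun i => m (i + 1)) (secw (wd W x) x₀) n) := by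
      intro x₀
      have h2 := ih (fun i => m (i + 1)) (fun i => hm (i + 1))
        (fun t k x => secw (wd W x) x₀ t k) (cc (m 0) * D) (fun t k => sec_mem hW x₀ t k) hn
      refine (h2.mono (le_of_eq ?_) le_rfl).congr fun x => Iff.rfl
      rw [prod_range_succ' (fun i => cc (m i)) k]
      ring
    have h2 := Cnd.all _ _ h1
    have h3 : Cnd ℓ (13 * ℓ * (m (k + 1) + 1) ^ 2 * ((∏ i ∈ range (k + 1), cc (m i)) * D)) 0
        (fun x => (∀ q : Pos (m 0), pos (wd W x) q n = q) ∧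
          ∀ (q : Pos (m 0)) (o), lam (wd W x) q n o = 0) := by
      refine (fix_cnd hW ℓ n).mono ?_ le_rfl
      have e1 : 1 ≤ ∏ i ∈ range k, cc (m (i + 1)) := Nat.one_le_iff_ne_zero.2
        (prod_ne_zero_iff.2 fun i _ => by have := one_le_cc (m (i + 1)); omega)
      have e2 : 1 ≤ 13 * ℓ * (m (k + 1) + 1) ^ 2 := by
        have : 1 ≤ (m (k + 1) + 1) ^ 2 := Nat.one_le_pow _ _ (by omega)
        nlinarith
      have e3 : (1 + 2 * (m 0 + 1) ^ 2) ≤ cc (m 0) := by unfold cc; omega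
      rw [prod_range_succ' (fun i => cc (m i)) k]
      calc (1 + 2 * (m 0 + 1) ^ 2) * D ≤ cc (m 0) * D := Nat.mul_le_mul_right _ e3
        _ = 1 * ((1 * cc (m 0)) * D) := by ring
        _ ≤ _ := Nat.mul_le_mul e2 (Nat.mul_le_mul_right _ (Nat.mul_le_mul_right _ e1))
    refine ((h3.and h2).mono le_rfl ?_).congr fun x => ?_
    · rw [sum_const, card_univ, smul_eq_mul, prod_range_succ' (fun i => Fintype.card (X (m i))) k]
      apply le_of_eq
      ring
    · rw [triv_iff]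
      refine and_congr ?_ Iff.rfl
      constructor
      · intro h
        constructor
        · intro q
          have := h (q, 0)
          rw [st_eq] at this
          exact congrArg Prod.fst this
        · intro q o
          have := h (q, 0)
          rw [st_eq] at this
          have h2 := congrFun (congrArg Prod.snd this) o
          simpa using h2
      · rintro ⟨h1, h2⟩ ⟨q, f⟩
        rw [st_eq, h1]
        refine Prod.ext rfl ?_
        funext o
        simp [h2]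

end H462R3.WP
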