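import Mathlib

/-!
# Circuits with AND, OR and oracle gates; AC⁰ Turing reductions (helper462)
-/

namespace H462R3.WP

/-- A wire into a gate of a circuit with `N` inputs and `G` gates. The wire `(b, s)` carries the
value of the input or gate `s`, negated if `b` is true. -/
abbrev Wire (N G : ℕ) := Bool × (Fin N ⊕ Fin G)

/-- The gates of a circuit with an oracle for a language over the alphabet `A`; `W` is the type
of wires. AND and OR gates have unbounded fan-in. An oracle gate of length `n` asks one word of
length `n` over `A`; the word is given in the encoding that has for every position `i < n` and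
every letter `a : A` one wire which says whether the letter at position `i` is `a`. -/
inductive Gate (A W : Type) : Type
  | and (l : List W)
  | or (l : List W)
  | query (n : ℕ) (w : Fin n → A → W)

/-- The wires into a gate. -/
def Gate.wires {A W : Type} : Gate A W → Set W
  | .and l => {w | w ∈ l}
  | .or l => {w | w ∈ l}
  | .query _ w => {v | ∃ i a, w i a = v}

/-- The gate outputs true if the wires carry the values `val` and `B` is the oracle. An oracle
gate outputs true if at every position `i` exactly one wire, that of the letter `u i`, is true,
and the word `u` is in `B`. -/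
def Gate.Holds {A W : Type} (B : Set (List A)) (val : W → Bool) : Gate A W → Prop
  | .and l => ∀ w ∈ l, val w = true
  | .or l => ∃ w ∈ l, val w = true
  | .query n w => ∃ u : Fin n → A, (∀ i a, val (w i a) = true ↔ u i = a) ∧ List.ofFn u ∈ B

/-- A circuit with `N` inputs with AND, OR, NOT (negated wires) and oracle gates. All wires into a
gate come from inputs and from gates of lower level. -/
structure OCircuit (A : Type) (N : ℕ) : Type where
  /-- the number of gates -/
  G : ℕ
  /-- the gates -/
  gate : Fin G → Gate A (Wire N G)
  /-- the level of a gate -/
  level : Fin G → ℕ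
  /-- wires go from lower to higher levels -/
  level_lt : ∀ (g : Fin G) (b : Bool) (g' : Fin G), (b, Sum.inr g') ∈ (gate g).wires →
    level g' < level g
  /-- the output -/
  out : Wire N G

variable {A : Type} {N : ℕ}

/-- the value carried by a wire, given the values `x` of the inputs and `v` of the gates -/
def OCircuit.val (C : OCircuit A N) (x : Fin N → Bool) (v : Fin C.G → Bool) (w : Wire N C.G) :
    Bool := xor w.1 (Sum.elim x v w.2)

/-- `v` gives the values of all gates on input `x` with oracle `B`. (There is exactly one such
`v`, see `OCircuit.existsUnique_run`.) -/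
def OCircuit.IsRun (C : OCircuit A N) (B : Set (List A)) (x : Fin N → Bool)
    (v : Fin C.G → Bool) : Prop :=
  ∀ g, v g = true ↔ (C.gate g).Holds B (C.val x v)

/-- The circuit with oracle `B` accepts `x`. -/
def OCircuit.Accepts (C : OCircuit A N) (B : Set (List A)) (x : Fin N → Bool) : Prop :=
  ∃ v, C.IsRun B x v ∧ C.val x v C.out = true

/-- The depth is at most `h`: the levels of the gates are less than `h`. -/
def OCircuit.DepthLE (C : OCircuit A N) (h : ℕ) : Prop := ∀ g, C.level g < h

/-- There are at most `s` gates, and the oracle gates ask words of length at most `s`. -/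
def OCircuit.SizeLE (C : OCircuit A N) (s : ℕ) : Prop :=
  C.G ≤ s ∧ ∀ g n w, C.gate g = Gate.query n w → n ≤ s

/-- The language `L` of bit strings is reducible to the language `B` over the alphabet `A` by
(nonuniform) AC⁰ Turing reductions: for some constants `h` and `c` there is for every input
length `N` a circuit of depth at most `h` and of size at most `N ^ c + c` that decides `L` on
inputs of length `N` with oracle gates for `B`. -/
def AC0TuringReducible (L : Set (List Bool)) (B : Set (List A)) : Prop :=
  ∃ h c : ℕ, ∀ N : ℕ, ∃ C : OCircuit A N, C.DepthLE h ∧ C.SizeLE (N ^ c + c) ∧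
    ∀ x : Fin N → Bool, List.ofFn x ∈ L ↔ C.Accepts B x

theorem Gate.holds_congr {W : Type} (B : Set (List A)) (val val' : W → Bool) (κ : Gate A W)
    (h : ∀ w ∈ κ.wires, val w = val' w) : κ.Holds B val ↔ κ.Holds B val' := by
  cases κ with
  | and l =>
    exact forall_congr' fun w => forall_congr' fun hw => by rw [h w hw]
  | or l =>
    constructor
    · rintro ⟨w, hw, h1⟩
      exact ⟨w, hw, by rw [← h w hw]; exact h1⟩
    · rintro ⟨w, hw, h1⟩
      exact ⟨w, hw, by rw [h w hw]; exact h1⟩
  | query n w =>
    refine exists_congr fun u => and_congr (forall_congr' fun i => forall_congr' fun a => ?_) Iff.rfl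
    rw [h (w i a) ⟨i, a, rfl⟩]

/-- every input has exactly one run -/
theorem OCircuit.existsUnique_run (C : OCircuit A N) (B : Set (List A)) (x : Fin N → Bool) :
    ∃! v, C.IsRun B x v := by
  classical
  have key : ∀ L : ℕ, ∃ v : Fin C.G → Bool, ∀ g, C.level g < L →
      (v g = true ↔ (C.gate g).Holds B (C.val x v)) := by
    intro L
    induction L with
    | zero => exact ⟨fun _ => false, fun g hg => absurd hg (Nat.not_lt_zero _)⟩
    | succ L ih =>
      obtain ⟨v, hv⟩ := ih
      refine ⟨fun g => if C.level g < L then v g else
        decide ((C.gate g).Holds B (C.val x v)), ?_⟩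
      intro g hg
      have hmap : (C.gate g).Holds B (C.val x (fun g => if C.level g < L then v g else
          decide ((C.gate g).Holds B (C.val x v)))) ↔ (C.gate g).Holds B (C.val x v) := by
        refine Gate.holds_congr B _ _ _ ?_
        rintro ⟨b, s | g'⟩ hw
        · rfl
        · have h1 := C.level_lt g b g' hw
          simp only [OCircuit.val, Sum.elim_inr]
          rw [if_pos (by omega)]
      rw [hmap]
      by_cases h1 : C.level g < L
      · simp only [if_pos h1]
        exact hv g h1
      · simp only [if_neg h1, decide_eq_true_eq]
  obtain ⟨v, hv⟩ := key ((Finset.univ.sup C.level) + 1)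
  have hv' : C.IsRun B x v := fun g => hv g (Nat.lt_succ_of_le (Finset.le_sup (Finset.mem_univ g)))
  refine ⟨v, hv', ?_⟩
  intro v' hv''
  have h2 : ∀ L : ℕ, ∀ g, C.level g < L → v' g = v g := by
    intro L
    induction L with
    | zero => intro g hg; exact absurd hg (Nat.not_lt_zero _)
    | succ L ih =>
      intro g hg
      rw [Bool.eq_iff_iff, hv'' g, hv' g]
      refine Gate.holds_congr B _ _ _ ?_
      rintro ⟨b, s | g'⟩ hw
      · rfl
      · have h1 := C.level_lt g b g' hw
        simp only [OCircuit.val, Sum.elim_inr]
        rw [ih g' (by omega)]
  funext g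
  exact h2 _ g (Nat.lt_succ_self _)

end H462R3.WP
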