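import Pool.Agent.H462R3.WP.Tower

/-!
# Short words: a combinatorial criterion (helper462)
-/

namespace H462R3.WP

open Finset

def pos {M : ℕ} (w : ℕ → Letter) (q : Pos M) : ℕ → Pos M
  | 0 => q
  | i + 1 => updPos (w i) (pos w q i)

def lam {M : ℕ} (w : ℕ → Letter) (q : Pos M) (i : ℕ) (o : Pos M) : ZMod 3 :=
  ∑ t ∈ range i, if pos w q t = o then w t 3 else 0

theorem st_eq {M : ℕ} (w : ℕ → Letter) (q : Pos M) (f : Pos M → ZMod 3) (i : ℕ) :
    st w (q, f) i = (pos w q i, fun o => f o + lam w q i o) := by
  induction i with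
  | zero => simp [st, pos, lam]
  | succ i ih =>
    rw [st, ih]
    refine Prod.ext rfl ?_
    funext o
    simp only [upd, lam]
    rw [sum_range_succ, add_assoc]

/-- the walk from 0 of length `n` returns to the initial state -/
def ret (M : ℕ) (w : ℕ → Letter) (n : ℕ) : Prop :=
  pos w (0 : Pos M) n = 0 ∧ ∀ o, lam w (0 : Pos M) n o = 0

theorem st_spec {M : ℕ} (w : ℕ → Letter) (k : Fin 5) (n : ℕ) :
    st w (spec k : X M) n = spec k ↔ ret M w n := by
  rw [spec, st_eq, Prod.ext_iff, ret]
  refine and_congr Iff.rfl (funext_iff.trans (forall_congr' fun o => ?_))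
  exact add_eq_left

/-- shifted word -/
def sh (a : ℕ) (w : ℕ → Letter) : ℕ → Letter := fun i => w (a + i)

theorem st_add {M : ℕ} (w : ℕ → Letter) (x : X M) (a b : ℕ) :
    st w x (a + b) = st (sh a w) (st w x a) b := by
  induction b with
  | zero => rfl
  | succ b ih => rw [← add_assoc, st, ih]; rfl

theorem updPos_injective {M : ℕ} (e : Letter) : Function.Injective (updPos e : Pos M → Pos M) := by
  intro q q' h
  have key : ∀ j : ℕ, ∀ hj : j < M + 1, q ⟨j, hj⟩ = q' ⟨j, hj⟩ := by
    intro j
    induction j with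
    | zero =>
      intro hj
      have := congrFun h ⟨0, hj⟩
      simpa [updPos] using this
    | succ j ih =>
      intro hj
      have h1 := congrFun h ⟨j + 1, hj⟩
      have h2 := ih (by omega)
      simp only [updPos, Nat.succ_ne_zero, if_false] at h1
      simp only [Nat.add_sub_cancel, h2] at h1
      exact add_right_cancel h1
  funext j
  exact key j.1 j.2

theorem upd_injective {M : ℕ} (e : Letter) : Function.Injective (upd e : X M → X M) := by
  rintro ⟨q, f⟩ ⟨q', f'⟩ h
  have h1 : q = q' := updPos_injective e (congrArg Prod.fst h)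
  subst h1
  refine Prod.ext rfl ?_
  funext o
  have := congrFun (congrArg Prod.snd h) o
  exact add_right_cancel this

theorem st_injective {M : ℕ} (w : ℕ → Letter) (n : ℕ) :
    Function.Injective (fun x : X M => st w x n) := by
  induction n with
  | zero => exact fun _ _ h => h
  | succ n ih => exact fun _ _ h => ih (upd_injective _ h)

theorem st_surjective {M : ℕ} (w : ℕ → Letter) (n : ℕ) :
    Function.Surjective (fun x : X M => st w x n) :=
  Finite.surjective_of_injective (st_injective w n)

theorem card_diff {M : ℕ} (k k' : Fin 5) (h : k ≠ k') :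
    3 ^ M ≤ (univ.filter fun o : Pos M => al k + be k * o 0 ≠ al k' + be k' * o 0).card := by
  obtain ⟨c, hc⟩ := al_be k k' h
  have h1 : (univ : Finset (Fin M → ZMod 3)).card = 3 ^ M := by
    rw [card_univ, Fintype.card_fun, ZMod.card, Fintype.card_fin]
  rw [← h1]
  refine card_le_card_of_injOn (fun v => (Fin.cons c v : Pos M)) ?_ ?_
  · intro v _
    simp only [coe_filter, mem_univ, true_and, Set.mem_ofPred_eq, Fin.cons_zero]
    exact hc
  · intro v _ v' _ h2
    exact (Fin.cons_injective2 h2).2

theorem far {M : ℕ} (w : ℕ → Letter) (x : X M) (k k' : Fin 5) (i i' : ℕ) (hii : i ≤ i')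
    (hn : i' < 3 ^ M) (h1 : st w x i = spec k) (h2 : st w x i' = spec k') : k = k' := by
  by_contra hne
  obtain ⟨b, rfl⟩ := Nat.exists_eq_add_of_le hii
  rw [st_add, h1, spec, st_eq] at h2
  have h3 := congrArg Prod.snd h2
  have h4 : (univ.filter fun o : Pos M => al k + be k * o 0 ≠ al k' + be k' * o 0) ⊆
      (range b).image (fun t => pos (sh i w) (0 : Pos M) t) := by
    intro o ho
    rw [mem_filter] at ho
    by_contra hno
    apply ho.2
    have h5 := congrFun h3 o
    have h6 : lam (sh i w) (0 : Pos M) b o = 0 := by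
      refine sum_eq_zero fun t ht => ?_
      rw [if_neg]
      intro h7
      exact hno (mem_image.2 ⟨t, ht, h7⟩)
    simp only [h6, add_zero] at h5
    exact h5
  have h5 := (card_diff (M := M) k k' hne).trans ((card_le_card h4).trans card_image_le)
  rw [card_range] at h5
  omega

theorem far' {M : ℕ} (w : ℕ → Letter) (x : X M) (k k' : Fin 5) (i i' n : ℕ) (hi : i < n) (hi' : i' < n)
    (hn : n < 3 ^ M) (h1 : st w x i = spec k) (h2 : st w x i' = spec k') : k = k' := by
  rcases le_total i i' with h | h
  · exact far w x k k' i i' h (by omega) h1 h2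
  · exact (far w x k' k i' i h (by omega) h2 h1).symm

theorem visit_iff {M : ℕ} (w : ℕ → Letter) (x : X M) (k : Fin 5) (a i : ℕ)
    (hx : st w x a = spec k) :
    st w x i = spec k ↔ ret M (sh (min i a) w) (max i a - min i a) := by
  rcases le_total i a with h | h
  · rw [min_eq_left h, max_eq_right h]
    obtain ⟨b, rfl⟩ := Nat.exists_eq_add_of_le h
    rw [Nat.add_sub_cancel_left]
    rw [st_add] at hx
    constructor
    · intro h1
      rw [h1] at hx
      exact (st_spec _ k b).1 hx
    · intro h1
      have h2 := (st_spec _ k b).2 h1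
      exact st_injective (sh i w) b (hx.trans h2.symm)
  · rw [min_eq_right h, max_eq_left h]
    obtain ⟨b, rfl⟩ := Nat.exists_eq_add_of_le h
    rw [Nat.add_sub_cancel_left, st_add, hx]
    exact st_spec _ k b

open Classical in
/-- the section exponent sums -/
noncomputable def FF (M : ℕ) (w : ℕ → Letter) (n a : ℕ) : ZMod 3 :=
  ∑ i ∈ range n, if ret M (sh (min i a) w) (max i a - min i a) then w i 4 else 0

theorem runY_congr {m : ℕ → ℕ} (w w' : ℕ → Letter) (n : ℕ) (h : ∀ i < n, w i = w' i) (y : Y m) :
    runY w y n = runY w' y n := by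
  induction n with
  | zero => rfl
  | succ n ih => rw [runY, runY, ih (fun i hi => h i (by omega)), h n (by omega)]

theorem Triv_congr {m : ℕ → ℕ} (w w' : ℕ → Letter) (n : ℕ) (h : ∀ i < n, w i = w' i) :
    Triv m w n ↔ Triv m w' n :=
  forall_congr' fun y => by rw [runY_congr w w' n h y]

open Classical in
theorem triv_sec {m : ℕ → ℕ} (hm : ∀ i, 2 ≤ m i) (w : ℕ → Letter) (n : ℕ) (hn : n < 3 ^ m 0)
    (x : X (m 0)) (k : Fin 5) (a : ℕ) (ha : a < n) (hx : st w x a = spec k) :
    Triv (fun i => m (i + 1)) (secw w x) n ↔ FF (m 0) w n a = 0 := by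
  set c : ℕ → ZMod 3 := fun i => if ret (m 0) (sh (min i a) w) (max i a - min i a) then w i 4 else 0
    with hc
  have h1 : ∀ i < n, secw w x i = sgl k c i := by
    intro i hi
    funext l
    simp only [secw, sec, sgl, hc]
    by_cases hl : l = k
    · subst hl
      rw [Pi.single_eq_same]
      by_cases hv : st w x i = spec l
      · rw [if_pos hv, if_pos ((visit_iff w x l a i hx).1 hv)]
      · rw [if_neg hv, if_neg (fun h => hv ((visit_iff w x l a i hx).2 h))]
    · rw [Pi.single_eq_of_ne hl, if_neg]
      intro h2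
      exact hl (far' w x l k i a n hi ha hn h2 hx)
  rw [Triv_congr _ _ n h1, triv_sgl (fun i => hm (i + 1))]
  exact Iff.rfl

theorem triv_top {m : ℕ → ℕ} (hm : ∀ i, 2 ≤ m i) (w : ℕ → Letter) (n : ℕ) (hn : n < 3 ^ m 0) :
    Triv m w n ↔ ((∀ q : Pos (m 0), pos w q n = q) ∧ ∀ (q : Pos (m 0)) (o), lam w q n o = 0) ∧
      ∀ a < n, FF (m 0) w n a = 0 := by
  rw [triv_iff]
  have hA : (∀ x : X (m 0), st w x n = x) ↔
      ((∀ q : Pos (m 0), pos w q n = q) ∧ ∀ (q : Pos (m 0)) (o), lam w q n o = 0) := by
    constructor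
    · intro h
      constructor
      · intro q
        have := h (q, 0)
        rw [st_eq] at this
        exact congrArg Prod.fst this
      · intro q o
        have := h (q, 0)
        rw [st_eq] at this
        have h2 := congrFun (congrArg Prod.snd this) o
        simpa using h2
    · rintro ⟨h1, h2⟩ ⟨q, f⟩
      rw [st_eq, h1]
      refine Prod.ext rfl ?_
      funext o
      simp [h2]
  refine and_congr hA ?_
  constructor
  · intro h a ha
    obtain ⟨x, hx⟩ := st_surjective w a (spec 0 : X (m 0))
    exact (triv_sec hm w n hn x 0 a ha hx).1 (h x)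
  · intro h x
    by_cases hv : ∃ k, ∃ a < n, st w x a = spec k
    · obtain ⟨k, a, ha, hx⟩ := hv
      exact (triv_sec hm w n hn x k a ha hx).2 (h a ha)
    · have h1 : ∀ i < n, secw w x i = sgl 0 (fun _ => 0) i := by
        intro i hi
        funext l
        simp only [secw, sec, sgl, Pi.single_zero, Pi.zero_apply]
        rw [if_neg]
        intro h2
        exact hv ⟨l, i, hi, h2⟩
      rw [Triv_congr _ _ n h1, triv_sgl (fun i => hm (i + 1))]
      simp

end H462R3.WP
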