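import Pool.Agent.H462R3.WP.Solv
import Pool.Agent.H462R3.WP.Top

/-!
# Words over a finite set of elements of the group (helper462)
-/

namespace H462R3.WP

set_option maxHeartbeats 400000

theorem runY_add {m : ℕ → ℕ} (w : ℕ → Letter) (y : Y m) (a b : ℕ) :
    runY w y (a + b) = runY (sh a w) (runY w y a) b := by
  induction b with
  | zero => rfl
  | succ b ih => rw [← add_assoc, runY, ih]; rfl

/-- action of a list of letters -/
def actL {m : ℕ → ℕ} (l : List Letter) (y : Y m) : Y m := l.foldl (fun y e => act e y) y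

theorem actL_append {m : ℕ → ℕ} (l l' : List Letter) (y : Y m) :
    actL (l ++ l') y = actL l' (actL l y) := by
  unfold actL; rw [List.foldl_append]

theorem exists_word {m : ℕ → ℕ} (g : Equiv.Perm (Y m)) (hg : g ∈ Grp m) :
    (∃ l : List Letter, ∀ y, g y = actL l y) ∧ (∃ l : List Letter, ∀ y, g⁻¹ y = actL l y) := by
  refine Subgroup.closure_induction (p := fun g _ =>
    (∃ l : List Letter, ∀ y, g y = actL l y) ∧ (∃ l : List Letter, ∀ y, g⁻¹ y = actL l y))
    ?_ ?_ ?_ ?_ hg
  · rintro _ ⟨k, rfl⟩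
    exact ⟨⟨[Pi.single k 1], fun y => rfl⟩, ⟨[Pi.single k (-1)], fun y => rfl⟩⟩
  · exact ⟨⟨[], fun y => rfl⟩, ⟨[], fun y => by rw [inv_one]; rfl⟩⟩
  · rintro a b _ _ ⟨⟨la, ha⟩, ⟨la', ha'⟩⟩ ⟨⟨lb, hb⟩, ⟨lb', hb'⟩⟩
    refine ⟨⟨lb ++ la, fun y => ?_⟩, ⟨la' ++ lb', fun y => ?_⟩⟩
    · rw [Equiv.Perm.mul_apply, actL_append, ha, hb]
    · rw [mul_inv_rev, Equiv.Perm.mul_apply, actL_append, hb', ha']
  · rintro a _ ⟨h1, h2⟩
    exact ⟨h2, by rw [inv_inv]; exact h1⟩

theorem runY_zero_word {m : ℕ → ℕ} (w : ℕ → Letter) (n : ℕ) (h : ∀ i < n, w i = 0) (y : Y m) :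
    runY w y n = y := by
  induction n with
  | zero => rfl
  | succ n ih => rw [runY, ih (fun i hi => h i (by omega)), h n (by omega), act_id]

theorem runY_list {m : ℕ → ℕ} (l : List Letter) : ∀ (y : Y m) (n : ℕ), l.length ≤ n →
    runY (fun t => l.getD t 0) y n = actL l y := by
  induction l with
  | nil => intro y n _; exact runY_zero_word _ n (fun i _ => by simp) y
  | cons e l ih =>
    intro y n hn
    obtain ⟨b, rfl⟩ : ∃ b, n = 1 + b := ⟨n - 1, by simp at hn; omega⟩
    rw [runY_add]
    have h1 : sh 1 (fun t => (e :: l).getD t 0) = fun t => l.getD t 0 := by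
      funext t
      simp [sh, add_comm 1 t]
    have h2 : runY (fun t => (e :: l).getD t 0) y 1 = act e y := rfl
    rw [h1, h2, ih _ b (by simp at hn; omega)]
    rfl

section
variable {m : ℕ → ℕ} {A : Type} [Fintype A] (γ : A → Grp m)

/-- a list of letters acting as the inverse of `γ a` -/
noncomputable def invWord (a : A) : List Letter := (exists_word (γ a).1 (γ a).2).2.choose

theorem invWord_spec (a : A) (y : Y m) : ((γ a).1)⁻¹ y = actL (invWord γ a) y :=
  (exists_word (γ a).1 (γ a).2).2.choose_spec y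

/-- a common length -/
noncomputable def wlen : ℕ := 1 + Finset.univ.sup fun a => (invWord γ a).length

theorem le_wlen (a : A) : (invWord γ a).length ≤ wlen γ := by
  have := Finset.le_sup (f := fun a => (invWord γ a).length) (Finset.mem_univ a)
  unfold wlen
  omega

theorem wlen_pos : 0 < wlen γ := by unfold wlen; omega

/-- the letters of the words -/
noncomputable def We (a : A) (t : ℕ) : Letter := (invWord γ a).getD t 0

/-- the long word -/
noncomputable def wl (l : List A) (t : ℕ) : Letter :=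
  (l[t / wlen γ]?).elim 0 fun a => We γ a (t % wlen γ)

theorem runY_wl (l : List A) : ∀ y : Y m,
    runY (wl γ l) y (wlen γ * l.length) = (((l.map γ).prod : Grp m).1)⁻¹ y := by
  induction l with
  | nil => intro y; simp [runY]
  | cons a l ih =>
    intro y
    rw [List.length_cons, Nat.mul_succ, add_comm, runY_add]
    have h1 : sh (wlen γ) (wl γ (a :: l)) = wl γ l := by
      funext t
      simp only [sh, wl]
      rw [Nat.add_mod_left, Nat.add_div_left _ (wlen_pos γ)]
      rfl
    have h2 : runY (wl γ (a :: l)) y (wlen γ) = ((γ a).1)⁻¹ y := by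
      rw [invWord_spec, ← runY_list (invWord γ a) y (wlen γ) (le_wlen γ a)]
      refine runY_congr _ _ _ (fun i hi => ?_) y
      simp only [wl]
      rw [Nat.div_eq_of_lt hi, Nat.mod_eq_of_lt hi]
      rfl
    rw [h1, h2, ih, List.map_cons, List.prod_cons]
    simp only [Subgroup.coe_mul, mul_inv_rev, Equiv.Perm.mul_apply]

theorem triv_wl (l : List A) :
    Triv m (wl γ l) (wlen γ * l.length) ↔ (l.map γ).prod = 1 := by
  constructor
  · intro h
    have h1 : (((l.map γ).prod : Grp m).1)⁻¹ = 1 := by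
      ext1 y
      rw [← runY_wl, h y]; rfl
    have h2 : ((l.map γ).prod : Grp m).1 = 1 := inv_eq_one.1 h1
    exact Subtype.ext h2
  · intro h y
    rw [runY_wl, h]
    simp

end

end H462R3.WP
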