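import Pool.Agent.H462R3.WP.Apx
import Pool.Agent.H462R3.WP.Word
import Pool.Agent.H462R3.WP.Circ

/-!
# Low degree approximation of circuits with word problem gates (helper462)
-/

namespace H462R3.WP

open Finset H746R3.Inv

set_option maxHeartbeats 400000

/-- The word problem: the words whose value in the group is 1. -/
def WordProblem {G A : Type} [Group G] (γ : A → G) : Set (List A) := {l | (l.map γ).prod = 1}

variable {V : Type} [Fintype V] [DecidableEq V]

theorem bK_ne {a b : Bool} (ha : a = true) (hb : b = true) : (bK a : ZMod 3) * bK b ≠ 0 := by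
  subst ha hb; decide

section
variable {m : ℕ → ℕ} {A : Type} [Fintype A] (γ : A → Grp m)

open Classical in
/-- the letters as functions of the input -/
noncomputable def WW {n : ℕ} (w : Fin n → A → P3 V) (t : ℕ) (k : Fin 5) : P3 V := fun x =>
  if h : t / wlen γ < n then ∑ a, w ⟨t / wlen γ, h⟩ a x * We γ a (t % wlen γ) k else 0

theorem WW_mem {n : ℕ} {D : ℕ} (w : Fin n → A → P3 V) (hw : ∀ i a, w i a ∈ LD (ZMod 3) V D)
    (t : ℕ) (k : Fin 5) : WW γ w t k ∈ LD (ZMod 3) V D := by
  unfold WW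
  by_cases h : t / wlen γ < n
  · simp only [h, dif_pos]
    have h1 : (fun x => ∑ a, w ⟨t / wlen γ, h⟩ a x * We γ a (t % wlen γ) k) =
        ∑ a, (We γ a (t % wlen γ) k) • w ⟨t / wlen γ, h⟩ a := by
      funext x
      rw [Finset.sum_apply]
      refine sum_congr rfl fun a _ => ?_
      rw [Pi.smul_apply, smul_eq_mul, mul_comm]
    rw [h1]
    exact Submodule.sum_mem _ fun a _ => Submodule.smul_mem _ _ (hw _ a)
  · simp only [h, dif_neg, not_false_iff]
    exact Submodule.zero_mem _

theorem WW_eq {n : ℕ} (w : Fin n → A → P3 V) (x : V → Bool) (τ : Fin n → A → Bool)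
    (hτ : ∀ i a, w i a x = bK (τ i a)) (u : Fin n → A) (hu : ∀ i a, τ i a = true ↔ u i = a)
    (t : ℕ) (ht : t < wlen γ * n) : wd (WW γ w) x t = wl γ (List.ofFn u) t := by
  classical
  have h : t / wlen γ < n := Nat.div_lt_of_lt_mul ht
  funext k
  simp only [wd, WW, wl]
  rw [dif_pos h]
  have h1 : (List.ofFn u)[t / wlen γ]? = some (u ⟨t / wlen γ, h⟩) := by
    rw [List.getElem?_ofFn, dif_pos h]
  rw [h1, Option.elim_some, sum_eq_single (u ⟨t / wlen γ, h⟩)]
  · rw [hτ, (hu _ _).2 rfl, bK_true, one_mul]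
  · intro a _ ha
    have h2 : τ ⟨t / wlen γ, h⟩ a = false := by
      rw [← Bool.not_eq_true, hu]
      exact fun h => ha h.symm
    rw [hτ, h2, bK_false, zero_mul]
  · intro h2
    exact absurd (mem_univ _) h2

open Classical in
theorem query_apx (hm : ∀ i, 2 ≤ m i) (ℓ n k D : ℕ) (hℓ : 1 ≤ ℓ) (w : Fin n → A → P3 V)
    (hw : ∀ i a, w i a ∈ LD (ZMod 3) V D) (hn : wlen γ * n < 3 ^ m k) :
    ∃ Q ∈ LD (ZMod 3) V (4 * ℓ * (13 * ℓ * (m k + 1) ^ 2 * ((∏ i ∈ range k, cc (m i)) * (2 * D)))),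
      ∃ E : Finset (V → Bool),
        E.card * 3 ^ ℓ ≤ ((wlen γ * n) ^ 2 * ∏ i ∈ range k, Fintype.card (X (m i)) + 1) *
          Fintype.card (V → Bool) ∧
        ∀ x, x ∉ E → ∀ τ : Fin n → A → Bool, (∀ i a, w i a x = bK (τ i a)) →
          ((∃ u : Fin n → A, (∀ i a, τ i a = true ↔ u i = a) ∧
            List.ofFn u ∈ WordProblem γ) → Q x = 1) ∧
          (¬ (∃ u : Fin n → A, (∀ i a, τ i a = true ↔ u i = a) ∧
            List.ofFn u ∈ WordProblem γ) → Q x = 0) := by
  set DD := 13 * ℓ * (m k + 1) ^ 2 * ((∏ i ∈ range k, cc (m i)) * (2 * D)) with hDD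
  have hDD2 : 2 * D ≤ DD := by
    have e1 : 1 ≤ ∏ i ∈ range k, cc (m i) := Nat.one_le_iff_ne_zero.2
      (prod_ne_zero_iff.2 fun i _ => by have := one_le_cc (m i); omega)
    have e2 : 1 ≤ 13 * ℓ * (m k + 1) ^ 2 := by
      have : 1 ≤ (m k + 1) ^ 2 := Nat.one_le_pow _ _ (by omega)
      nlinarith
    calc 2 * D = 1 * (1 * (2 * D)) := by ring
      _ ≤ _ := Nat.mul_le_mul e2 (Nat.mul_le_mul_right _ e1)
  have h1 : Cnd ℓ DD (∑ _p : Fin n × A × A, 0) (fun x => ∀ p : Fin n × A × A,
      (if p.2.1 ≠ p.2.2 then w p.1 p.2.1 x * w p.1 p.2.2 x else 0) = 0) := by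
    refine Cnd.all (fun _ => 0) (fun (p : Fin n × A × A) x =>
      (if p.2.1 ≠ p.2.2 then w p.1 p.2.1 x * w p.1 p.2.2 x else 0) = 0) ?_
    rintro ⟨i, a, a'⟩
    have h2 : (fun x => if a ≠ a' then w i a x * w i a' x else 0) ∈ LD (ZMod 3) V (2 * D) := by
      by_cases h : a ≠ a'
      · simp only [if_pos h]
        have h3 := mul_mem (hw i a) (hw i a')
        rw [← two_mul] at h3
        exact h3
      · simp only [if_neg h]
        exact Submodule.zero_mem _
    exact (Cnd.exact h2).mono hDD2 le_rfl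
  have h2 : Cnd ℓ DD (∑ _i : Fin n, 0) (fun x => ∀ i : Fin n, ∑ a, w i a x - 1 = 0) := by
    refine Cnd.all (fun _ => 0) (fun (i : Fin n) x => ∑ a, w i a x - 1 = 0) ?_
    intro i
    have h3 : (fun x => ∑ a, w i a x - 1) ∈ LD (ZMod 3) V D := by
      have h4 : (fun x => ∑ a, w i a x - 1) = (∑ a, w i a) - 1 := by
        funext x
        rw [Pi.sub_apply, Finset.sum_apply]
        rfl
      rw [h4]
      exact Submodule.sub_mem _ (Submodule.sum_mem _ fun a _ => hw i a) (one_mem _)
    exact (Cnd.exact h3).mono (by omega) le_rfl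
  have h3 := lev_cnd (V := V) ℓ (wlen γ * n) hℓ k m hm (WW γ w) (2 * D)
    (fun t k => LD_mono (by omega) (WW_mem γ w hw t k)) hn
  obtain ⟨Q, hQ, E, hE, hQE⟩ := ((h1.and h2).and h3).nor
  refine ⟨Q, hQ, E, hE.trans (Nat.mul_le_mul_right _ (by simp)), ?_⟩
  intro x hx τ hτ
  rw [hQE x hx]
  have key : (((∀ p : Fin n × A × A,
      (if p.2.1 ≠ p.2.2 then w p.1 p.2.1 x * w p.1 p.2.2 x else 0) = 0) ∧
      (∀ i : Fin n, ∑ a, w i a x - 1 = 0)) ∧ Triv m (wd (WW γ w) x) (wlen γ * n)) ↔
      (∃ u : Fin n → A, (∀ i a, τ i a = true ↔ u i = a) ∧ List.ofFn u ∈ WordProblem γ) := by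
    have hT : ∀ u : Fin n → A, (∀ i a, τ i a = true ↔ u i = a) →
        (Triv m (wd (WW γ w) x) (wlen γ * n) ↔ List.ofFn u ∈ WordProblem γ) := by
      intro u hu
      rw [Triv_congr _ _ _ (fun t ht => WW_eq γ w x τ hτ u hu t ht)]
      have h5 := triv_wl γ (List.ofFn u)
      rw [List.length_ofFn] at h5
      exact h5
    constructor
    · rintro ⟨⟨h4, h5⟩, h6⟩
      have h7 : ∀ i, ∃ a, τ i a = true := by
        intro i
        by_contra hno
        push Not at hno
        have h8 := h5 i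
        rw [sum_eq_zero] at h8
        · exact absurd h8 (by decide)
        · intro a _
          have h9 : τ i a = false := by simpa using hno a
          rw [hτ, h9]; rfl
      choose u hu using h7
      have hu' : ∀ i a, τ i a = true ↔ u i = a := by
        intro i a
        constructor
        · intro h8
          by_contra hne
          have h9 := h4 (i, u i, a)
          simp only at h9
          rw [if_pos hne, hτ, hτ] at h9
          exact bK_ne (hu i) h8 h9
        · rintro rfl; exact hu i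
      exact ⟨u, hu', (hT u hu').1 h6⟩
    · rintro ⟨u, hu, h4⟩
      refine ⟨⟨?_, ?_⟩, (hT u hu).2 h4⟩
      · rintro ⟨i, a, a'⟩
        simp only
        split_ifs with hne
        · by_cases h5 : u i = a
          · have h6 : τ i a' = false := by
              rw [← Bool.not_eq_true, hu]
              exact fun h => hne (h5.symm.trans h)
            rw [hτ i a', h6, bK_false, mul_zero]
          · have h6 : τ i a = false := by
              rw [← Bool.not_eq_true, hu]; exact h5
            rw [hτ i a, h6, bK_false, zero_mul]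
        · rfl
      · intro i
        rw [sum_eq_single (u i)]
        · rw [hτ, (hu _ _).2 rfl, bK_true, sub_self]
        · intro a _ ha
          have h2 : τ i a = false := by
            rw [← Bool.not_eq_true, hu]
            exact fun h => ha h.symm
          rw [hτ, h2, bK_false]
        · intro h2
          exact absurd (mem_univ _) h2
  beta_reduce
  exact ⟨fun hc => if_pos (key.2 hc), fun hc => if_neg (fun h => hc (key.1 h))⟩

/-- the degree factor of one layer of gates -/
def KK (m : ℕ → ℕ) (ℓ k : ℕ) : ℕ := 104 * ℓ ^ 2 * (m k + 1) ^ 2 * ∏ i ∈ range k, cc (m i)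

theorem four_le_KK (m : ℕ → ℕ) (ℓ k : ℕ) (hℓ : 1 ≤ ℓ) : 4 * ℓ ≤ KK m ℓ k := by
  have e1 : 1 ≤ ∏ i ∈ range k, cc (m i) := Nat.one_le_iff_ne_zero.2
    (prod_ne_zero_iff.2 fun i _ => by have := one_le_cc (m i); omega)
  have e2 : 1 ≤ (m k + 1) ^ 2 := Nat.one_le_pow _ _ (by omega)
  have e3 : ℓ ≤ ℓ ^ 2 := by nlinarith
  calc 4 * ℓ ≤ 104 * ℓ ^ 2 * 1 * 1 := by omega
    _ ≤ _ := Nat.mul_le_mul (Nat.mul_le_mul_left _ e2) e1

/-- the error of one gate -/
def UU (m : ℕ → ℕ) (lw s k : ℕ) : ℕ := (lw * s) ^ 2 * ∏ i ∈ range k, Fintype.card (X (m i)) + 1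

open Classical in
theorem gate_apx (hm : ∀ i, 2 ≤ m i) (ℓ s k D : ℕ) (hℓ : 1 ≤ ℓ) {Wt : Type} (κ : Gate A Wt)
    (wp : Wt → P3 V) (hwp : ∀ w, wp w ∈ LD (ZMod 3) V D)
    (hκ : ∀ n w, κ = Gate.query n w → n ≤ s) (hs : wlen γ * s < 3 ^ m k) :
    ∃ Q ∈ LD (ZMod 3) V (KK m ℓ k * D), ∃ E : Finset (V → Bool),
        E.card * 3 ^ ℓ ≤ UU m (wlen γ) s k * Fintype.card (V → Bool) ∧
        ∀ x, x ∉ E → ∀ val : Wt → Bool, (∀ w ∈ κ.wires, wp w x = bK (val w)) →
          (κ.Holds (WordProblem γ) val → Q x = 1) ∧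
          (¬ κ.Holds (WordProblem γ) val → Q x = 0) := by
  cases κ with
  | and l =>
    have h1 : Cnd ℓ D (∑ _i : Fin l.length, 0) (fun x => ∀ i : Fin l.length, 1 - wp l[i] x = 0) := by
      refine Cnd.all (fun _ => 0) (fun (i : Fin l.length) x => 1 - wp l[i] x = 0) ?_
      intro i
      exact Cnd.exact (F := fun x => 1 - wp l[i] x) (Submodule.sub_mem _ (one_mem _) (hwp _))
    obtain ⟨Q, hQ, E, hE, hQE⟩ := h1.nor
    refine ⟨Q, LD_mono (Nat.mul_le_mul_right _ (four_le_KK m ℓ k hℓ)) hQ, E,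
      hE.trans (Nat.mul_le_mul_right _ (by simp [UU])), ?_⟩
    intro x hx val hval
    rw [hQE x hx]
    have key : (∀ i : Fin l.length, 1 - wp l[i] x = 0) ↔ ∀ w ∈ l, val w = true := by
      constructor
      · intro h w hw
        obtain ⟨i, hi, rfl⟩ := List.getElem_of_mem hw
        have h2 := h ⟨i, hi⟩
        have h3 := hval l[i] (List.getElem_mem hi)
        simp only [Fin.getElem_fin] at h2
        rw [h3] at h2
        cases hv : val l[i] with
        | true => rfl
        | false => rw [hv] at h2; exact absurd h2 (by decide)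
      · intro h i
        have h3 := hval l[i] (List.getElem_mem i.2)
        have h4 : val l[i] = true := h _ (List.getElem_mem i.2)
        rw [h3, h4]
        decide
    beta_reduce
    exact ⟨fun hc => if_pos (key.2 hc), fun hc => if_neg (fun h => hc (key.1 h))⟩
  | or l =>
    have h1 : Cnd ℓ D (∑ _i : Fin l.length, 0) (fun x => ∀ i : Fin l.length, wp l[i] x = 0) := by
      refine Cnd.all (fun _ => 0) (fun (i : Fin l.length) x => wp l[i] x = 0) ?_
      intro i
      exact Cnd.exact (F := fun x => wp l[i] x) (hwp _)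
    obtain ⟨Q, hQ, E, hE, hQE⟩ := h1.nor
    refine ⟨1 - Q, Submodule.sub_mem _ (one_mem _)
      (LD_mono (Nat.mul_le_mul_right _ (four_le_KK m ℓ k hℓ)) hQ), E,
      hE.trans (Nat.mul_le_mul_right _ (by simp [UU])), ?_⟩
    intro x hx val hval
    rw [Pi.sub_apply, hQE x hx]
    have key : (∀ i : Fin l.length, wp l[i] x = 0) ↔ ¬ ∃ w ∈ l, val w = true := by
      push Not
      constructor
      · intro h w hw
        obtain ⟨i, hi, rfl⟩ := List.getElem_of_mem hw
        have h2 := h ⟨i, hi⟩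
        have h3 := hval l[i] (List.getElem_mem hi)
        simp only [Fin.getElem_fin] at h2
        rw [h3] at h2
        cases hv : val l[i] with
        | true => rw [hv] at h2; exact absurd h2 (by decide)
        | false => decide
      · intro h i
        have h3 := hval l[i] (List.getElem_mem i.2)
        have h4 : val l[i] ≠ true := h _ (List.getElem_mem i.2)
        have h5 : val l[i] = false := by simpa using h4
        rw [h3, h5]
        rfl
    beta_reduce
    refine ⟨fun hc => ?_, fun hc => ?_⟩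
    · rw [if_neg (fun h => (key.1 h) hc), sub_zero]; rfl
    · rw [if_pos (key.2 hc)]; exact sub_self _
  | query n w =>
    have hns := hκ n w rfl
    have hn : wlen γ * n < 3 ^ m k := lt_of_le_of_lt (Nat.mul_le_mul_left _ hns) hs
    obtain ⟨Q, hQ, E, hE, hQE⟩ := query_apx γ hm ℓ n k D hℓ (fun i a => wp (w i a))
      (fun i a => hwp _) hn
    refine ⟨Q, LD_mono (le_of_eq ?_) hQ, E, hE.trans (Nat.mul_le_mul_right _ ?_), ?_⟩
    · unfold KK; ring
    · unfold UU
      exact Nat.add_le_add_right (Nat.mul_le_mul_right _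
        (Nat.pow_le_pow_left (Nat.mul_le_mul_left _ hns) 2)) 1
    · intro x hx val hval
      exact hQE x hx (fun i a => val (w i a)) (fun i a => hval _ ⟨i, a, rfl⟩)

/-- the value of a wire as a function of the input -/
def wpoly {N G : ℕ} (ρ : Fin N → V) (P : Fin G → P3 V) (w : Wire N G) : P3 V := fun y =>
  if w.1 then 1 - Sum.elim (fun i => bK (y (ρ i))) (fun g => P g y) w.2
    else Sum.elim (fun i => bK (y (ρ i))) (fun g => P g y) w.2

omit [Fintype V] in
theorem wpoly_mem {N G : ℕ} (ρ : Fin N → V) (P : Fin G → P3 V) (D : ℕ) (hD : 1 ≤ D)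
    (hP : ∀ g, P g ∈ LD (ZMod 3) V D) (w : Wire N G) : wpoly ρ P w ∈ LD (ZMod 3) V D := by
  have h1 : (fun y : V → Bool => (Sum.elim (fun i => bK (y (ρ i))) (fun g => P g y) w.2 : ZMod 3)) ∈
      LD (ZMod 3) V D := by
    obtain ⟨b, i | g⟩ := w
    · exact LD_mono hD (coord_mem (ρ i))
    · exact hP g
  obtain ⟨b, s⟩ := w
  cases b with
  | false => exact h1
  | true => exact Submodule.sub_mem _ (one_mem _) h1

omit [Fintype V] [DecidableEq V] in
theorem wpoly_val {N G : ℕ} (ρ : Fin N → V) (P : Fin G → P3 V) (w : Wire N G) (y : V → Bool)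
    (v : Fin G → Bool) (h : ∀ g, w.2 = Sum.inr g → P g y = bK (v g)) :
    wpoly ρ P w y = bK (xor w.1 (Sum.elim (fun i => y (ρ i)) v w.2)) := by
  obtain ⟨b, i | g⟩ := w
  · simp only [wpoly, Sum.elim_inl]
    cases b <;> cases y (ρ i) <;> simp
  · simp only [wpoly, Sum.elim_inr]
    rw [h g rfl]
    cases b <;> cases v g <;> simp

theorem circ_apx (hm : ∀ i, 2 ≤ m i) (ℓ s k : ℕ) (hℓ : 1 ≤ ℓ) {N : ℕ} (ρ : Fin N → V)
    (C : OCircuit A N) (hC : C.SizeLE s) (hs : wlen γ * s < 3 ^ m k) (L : ℕ) :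
    ∃ P : Fin C.G → P3 V, (∀ g, P g ∈ LD (ZMod 3) V (KK m ℓ k ^ L)) ∧
      ∃ E : Finset (V → Bool),
        E.card * 3 ^ ℓ ≤ (L * (s * UU m (wlen γ) s k)) * Fintype.card (V → Bool) ∧
        ∀ y, y ∉ E → ∀ v, C.IsRun (WordProblem γ) (fun i => y (ρ i)) v →
          ∀ g, C.level g < L → P g y = bK (v g) := by
  classical
  induction L with
  | zero =>
    refine ⟨fun _ => 0, fun _ => Submodule.zero_mem _, ∅, by simp, ?_⟩
    intro y _ v _ g hg
    exact absurd hg (Nat.not_lt_zero _)
  | succ L ih =>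
    obtain ⟨P, hP, E, hE, hPE⟩ := ih
    have hK : 1 ≤ KK m ℓ k ^ L := Nat.one_le_pow _ _ (by have := four_le_KK m ℓ k hℓ; omega)
    have h1 : ∀ g, ∃ Q ∈ LD (ZMod 3) V (KK m ℓ k * KK m ℓ k ^ L), ∃ E : Finset (V → Bool),
        E.card * 3 ^ ℓ ≤ UU m (wlen γ) s k * Fintype.card (V → Bool) ∧
        ∀ x, x ∉ E → ∀ val : Wire N C.G → Bool,
          (∀ w ∈ (C.gate g).wires, wpoly ρ P w x = bK (val w)) →
          ((C.gate g).Holds (WordProblem γ) val → Q x = 1) ∧
          (¬ (C.gate g).Holds (WordProblem γ) val → Q x = 0) := fun g =>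
      gate_apx γ hm ℓ s k _ hℓ (C.gate g) (wpoly ρ P) (wpoly_mem ρ P _ hK hP)
        (fun n w h => hC.2 g n w h) hs
    choose Q hQ E' hE' hQE using h1
    refine ⟨fun g => if C.level g < L + 1 then Q g else 0, ?_, E ∪ univ.biUnion E', ?_, ?_⟩
    · intro g
      beta_reduce
      split_ifs
      · rw [pow_succ, mul_comm]; exact hQ g
      · exact Submodule.zero_mem _
    · calc (E ∪ univ.biUnion E').card * 3 ^ ℓ
          ≤ (E.card + ∑ g, (E' g).card) * 3 ^ ℓ := Nat.mul_le_mul_right _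
            ((card_union_le _ _).trans (Nat.add_le_add_left card_biUnion_le _))
        _ = E.card * 3 ^ ℓ + ∑ g, (E' g).card * 3 ^ ℓ := by rw [add_mul, sum_mul]
        _ ≤ (L * (s * UU m (wlen γ) s k)) * Fintype.card (V → Bool) +
            ∑ _g : Fin C.G, UU m (wlen γ) s k * Fintype.card (V → Bool) :=
          Nat.add_le_add hE (sum_le_sum fun g _ => hE' g)
        _ = (L * (s * UU m (wlen γ) s k)) * Fintype.card (V → Bool) +
            C.G * (UU m (wlen γ) s k * Fintype.card (V → Bool)) := by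
          rw [sum_const, card_univ, Fintype.card_fin, smul_eq_mul]
        _ ≤ (L * (s * UU m (wlen γ) s k)) * Fintype.card (V → Bool) +
            s * (UU m (wlen γ) s k * Fintype.card (V → Bool)) :=
          Nat.add_le_add_left (Nat.mul_le_mul_right _ hC.1) _
        _ = _ := by ring
    · intro y hy v hv g hg
      rw [mem_union, not_or, mem_biUnion] at hy
      push Not at hy
      beta_reduce
      rw [if_pos hg]
      obtain ⟨hQ1, hQ0⟩ : ((C.gate g).Holds (WordProblem γ) (C.val (fun i => y (ρ i)) v) →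
          Q g y = 1) ∧ (¬ (C.gate g).Holds (WordProblem γ) (C.val (fun i => y (ρ i)) v) →
          Q g y = 0) := by
        refine hQE g y (hy.2 g (mem_univ _)) (C.val (fun i => y (ρ i)) v) ?_
        rintro ⟨b, w⟩ hw
        refine wpoly_val ρ P (b, w) y v ?_
        intro g' hg'
        simp only at hg'
        subst hg'
        have h4 := C.level_lt g b g' hw
        exact hPE y hy.1 v hv g' (by omega)
      have h2 := hv g
      by_cases h3 : (C.gate g).Holds (WordProblem γ) (C.val (fun i => y (ρ i)) v)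
      · rw [hQ1 h3, h2.2 h3]; rfl
      · have h4 : v g = false := by rw [← Bool.not_eq_true, h2]; exact h3
        rw [hQ0 h3, h4]; rfl

end

end H462R3.WP
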