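import Pool.Agent.H746R3.Inv.Count
import Pool.Agent.H746R3.Inv.Approx

/-!
# Low degree functions do not approximate parity (Smolensky) (helper462)
-/

namespace H462R3.WP

open Finset H746R3.Inv

set_option maxHeartbeats 400000

theorem central_bound (r : ℕ) : (Nat.centralBinom r) ^ 2 * (2 * r + 1) ≤ 16 ^ r := by
  induction r with
  | zero => simp
  | succ r ih =>
    have h1 := Nat.succ_mul_centralBinom_succ r
    set C := Nat.centralBinom r with hC
    set C' := Nat.centralBinom (r + 1) with hC'
    have h2 : (C' ^ 2 * (2 * (r + 1) + 1)) * (r + 1) ^ 2 ≤ 16 ^ (r + 1) * (r + 1) ^ 2 := by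
      calc (C' ^ 2 * (2 * (r + 1) + 1)) * (r + 1) ^ 2
          = ((r + 1) * C') ^ 2 * (2 * (r + 1) + 1) := by ring
        _ = (2 * (2 * r + 1) * C) ^ 2 * (2 * (r + 1) + 1) := by rw [h1]
        _ = (C ^ 2 * (2 * r + 1)) * (4 * (2 * r + 1) * (2 * r + 3)) := by ring
        _ ≤ 16 ^ r * (4 * (2 * r + 1) * (2 * r + 3)) := Nat.mul_le_mul_right _ ih
        _ ≤ 16 ^ r * (16 * (r + 1) ^ 2) := Nat.mul_le_mul_left _ (by nlinarith)
        _ = _ := by ring
    exact Nat.le_of_mul_le_mul_right h2 (by positivity)

theorem low_count {V : Type} [Fintype V] [DecidableEq V] (r d : ℕ) (hV : Fintype.card V = 2 * r) :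
    2 * (univ.filter fun B : Finset V => B.card ≤ r + d).card ≤
      2 ^ (2 * r) + 2 * ((d + 1) * Nat.centralBinom r) := by
  set low := univ.filter fun B : Finset V => B.card < r with hlow
  set high := univ.filter fun B : Finset V => r < B.card with hhigh
  have h1 : low.card ≤ high.card := by
    refine card_le_card_of_injOn (fun B => Bᶜ) ?_ ?_
    · intro B hB
      rw [hlow, mem_coe, mem_filter] at hB
      rw [hhigh, mem_coe, mem_filter]
      refine ⟨mem_univ _, ?_⟩
      rw [card_compl, hV]
      omega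
    · intro B _ B' _ h
      exact compl_injective h
  have h2 : low.card + high.card ≤ 2 ^ (2 * r) := by
    rw [← card_union_of_disjoint]
    · refine (card_le_univ _).trans ?_
      rw [Fintype.card_finset, hV]
    · rw [disjoint_left]
      intro B hB hB'
      rw [hlow, mem_filter] at hB
      rw [hhigh, mem_filter] at hB'
      omega
  have h3 : (univ.filter fun B : Finset V => B.card ≤ r + d) ⊆
      low ∪ (range (d + 1)).biUnion (fun i => univ.filter fun B : Finset V => B.card = r + i) := by
    intro B hB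
    rw [mem_filter] at hB
    rw [mem_union, mem_biUnion]
    by_cases h : B.card < r
    · left; rw [hlow, mem_filter]; exact ⟨mem_univ _, h⟩
    · right
      refine ⟨B.card - r, mem_range.2 (by omega), ?_⟩
      rw [mem_filter]
      exact ⟨mem_univ _, by omega⟩
  have h4 : ∀ i, (univ.filter fun B : Finset V => B.card = r + i).card ≤ Nat.centralBinom r := by
    intro i
    rw [univ_filter_card_eq, card_powersetCard, card_univ, hV]
    exact Nat.choose_le_centralBinom _ _
  have h5 : (univ.filter fun B : Finset V => B.card ≤ r + d).card ≤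
      low.card + (d + 1) * Nat.centralBinom r := by
    refine (card_le_card h3).trans ((card_union_le _ _).trans (Nat.add_le_add_left ?_ _))
    refine card_biUnion_le.trans ((sum_le_sum fun i _ => h4 i).trans ?_)
    rw [sum_const, card_range, smul_eq_mul]
  omega

theorem zz_prod (n : ℕ) (x : Fin n → Bool) :
    ∏ t, zz (-1 : ZMod 3) (x t) = (-1) ^ ((List.ofFn x).count true) := by
  rw [count_ofFn, ← Finset.prod_pow_eq_pow_sum]
  refine prod_congr rfl fun t _ => ?_
  cases x t <;> simp [zz]

open Classical in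
theorem parity_bound (r d : ℕ) (h : 16 * (d + 1) ^ 2 ≤ 2 * r)
    (E : Finset (Unit × Fin (2 * r) → Bool)) (hE : 8 * E.card ≤ 2 ^ (2 * r))
    (Q : (Unit × Fin (2 * r) → Bool) → ZMod 3) (hQ : Q ∈ LD (ZMod 3) (Unit × Fin (2 * r)) d)
    (hQE : ∀ y, y ∉ E → Q y =
      if Odd ((List.ofFn fun t => y ((), t)).count true) then 1 else 0) : False := by
  have h1 := dp_count (K := ZMod 3) (J := Unit) r d (r + d) (-1) (by decide) (by decide) Eᶜ
    (fun _ => 1 + Q) (fun _ => Submodule.add_mem _ (one_mem _) hQ) ?_
  · have h2 : (univ.filter fun A : Finset (Unit × Fin (2 * r)) =>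
        r + d < ∑ j, (min (sec A j).card (2 * r - (sec A j).card) + d)) = ∅ := by
      rw [filter_eq_empty_iff]
      intro A _
      rw [Fintype.sum_unique]
      omega
    rw [h2, card_empty, add_zero] at h1
    have hV : Fintype.card (Unit × Fin (2 * r)) = 2 * r := by simp
    have h3 := low_count (V := Unit × Fin (2 * r)) r d hV
    have h4 : Eᶜ.card = 2 ^ (2 * r) - E.card := by
      rw [card_compl, Fintype.card_fun, hV, Fintype.card_bool]
    have h5 : 4 * ((d + 1) * Nat.centralBinom r) ≤ 4 ^ r := by
      have h6 : (4 * ((d + 1) * Nat.centralBinom r)) ^ 2 ≤ (4 ^ r) ^ 2 := by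
        calc (4 * ((d + 1) * Nat.centralBinom r)) ^ 2
            = (Nat.centralBinom r) ^ 2 * (16 * (d + 1) ^ 2) := by ring
          _ ≤ (Nat.centralBinom r) ^ 2 * (2 * r + 1) := Nat.mul_le_mul_left _ (by omega)
          _ ≤ 16 ^ r := central_bound r
          _ = (4 ^ r) ^ 2 := by rw [← pow_mul, mul_comm r 2, pow_mul]; norm_num
      exact (Nat.pow_le_pow_iff_left (by norm_num)).1 h6
    have h7 : (2 : ℕ) ^ (2 * r) = 4 ^ r := by rw [pow_mul]; norm_num
    have h8 : 0 < 4 ^ r := by positivity
    rw [h7] at h3 h4 hE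
    omega
  · intro y hy j
    rw [mem_compl] at hy
    have h2 := zz_prod (2 * r) (fun t => y ((), t))
    have h3 : ∏ t, zz (-1 : ZMod 3) (y (j, t)) = (-1) ^ ((List.ofFn fun t => y ((), t)).count true) := h2
    rw [h3, Pi.add_apply, hQE y hy]
    split_ifs with h4
    · rw [h4.neg_one_pow]
      show (1 : ZMod 3) + 1 = -1
      decide
    · rw [Nat.not_odd_iff_even] at h4
      rw [h4.neg_one_pow, add_zero]; rfl

end H462R3.WP
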