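import Pool.Agent.H462R3.WP.Apx

/-!
# The choice of the scales (helper462)
-/

namespace H462R3.WP

open Finset Filter

set_option maxHeartbeats 400000

theorem exists_scale (J A B : ℕ) : ∃ t : ℕ, 1 ≤ t ∧ A + 1 ≤ 3 ^ t ∧ 8 * J ≤ 3 ^ t ∧
    16 * ((5096 * ((t + 1) * (J + 1) + 1) ^ 4 * B) ^ J + 1) ^ 2 ≤ 2 * 3 ^ t := by
  set C := (5096 * (J + 2) ^ 4 * (B + 1)) ^ J with hC
  have h1 := tendsto_pow_const_div_const_pow_of_one_lt (8 * J) (r := (3 : ℝ)) (by norm_num)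
  have hCpos : (0 : ℝ) < 1 / (96 * (C : ℝ) ^ 2) := by positivity
  have h2 := h1.eventually (gt_mem_nhds hCpos)
  have h3 : Tendsto (fun t : ℕ => 3 ^ t) atTop atTop := tendsto_pow_atTop_atTop_of_one_lt (by norm_num)
  have h4 := h3.eventually (eventually_ge_atTop (A + 1))
  have h5 := h3.eventually (eventually_ge_atTop (8 * J))
  have h2' := (tendsto_add_atTop_nat 1).eventually h2
  obtain ⟨t, ht1, ht2, ht3, ht4⟩ := (((eventually_ge_atTop 1).and
    (h4.and (h5.and h2'))).exists)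
  refine ⟨t, ht1, ht2, ht3, ?_⟩
  have hC1 : 1 ≤ C := Nat.one_le_pow _ _ (by positivity)
  have e1 : (5096 * ((t + 1) * (J + 1) + 1) ^ 4 * B) ^ J ≤ C * (t + 1) ^ (4 * J) := by
    have e2 : (t + 1) * (J + 1) + 1 ≤ (J + 2) * (t + 1) := by nlinarith
    calc (5096 * ((t + 1) * (J + 1) + 1) ^ 4 * B) ^ J
        ≤ (5096 * ((J + 2) * (t + 1)) ^ 4 * (B + 1)) ^ J := by
          refine Nat.pow_le_pow_left ?_ _
          exact Nat.mul_le_mul (Nat.mul_le_mul_left _ (Nat.pow_le_pow_left e2 4)) (by omega)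
      _ = ((5096 * (J + 2) ^ 4 * (B + 1)) * (t + 1) ^ 4) ^ J := by
          rw [mul_pow (J + 2) (t + 1) 4, ← mul_assoc 5096, mul_assoc (5096 * (J + 2) ^ 4),
            mul_comm ((t + 1) ^ 4) (B + 1), ← mul_assoc]
      _ = C * (t + 1) ^ (4 * J) := by rw [mul_pow, hC, pow_mul]
  have e3 : 1 ≤ C * (t + 1) ^ (4 * J) := Nat.one_le_iff_ne_zero.2 (by positivity)
  have e4 : 16 * ((5096 * ((t + 1) * (J + 1) + 1) ^ 4 * B) ^ J + 1) ^ 2 ≤
      64 * C ^ 2 * (t + 1) ^ (8 * J) := by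
    calc 16 * ((5096 * ((t + 1) * (J + 1) + 1) ^ 4 * B) ^ J + 1) ^ 2
        ≤ 16 * (2 * (C * (t + 1) ^ (4 * J))) ^ 2 := by
          refine Nat.mul_le_mul_left _ (Nat.pow_le_pow_left ?_ 2)
          omega
      _ = 64 * C ^ 2 * (t + 1) ^ (8 * J) := by
          rw [show 8 * J = 4 * J + 4 * J by ring, pow_add]; ring
  refine e4.trans ?_
  have h6 : (0 : ℝ) < 3 ^ (t + 1) := by positivity
  rw [div_lt_div_iff₀ h6 (by positivity)] at ht4
  have h7 : (((t + 1 : ℕ) : ℝ)) ^ (8 * J) * (96 * (C : ℝ) ^ 2) < 1 * 3 ^ (t + 1) := ht4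
  have h8 : (t + 1) ^ (8 * J) * (96 * C ^ 2) < 3 ^ (t + 1) := by
    have h9 : (((t + 1) ^ (8 * J) * (96 * C ^ 2) : ℕ) : ℝ) < ((3 ^ (t + 1) : ℕ) : ℝ) := by
      push_cast
      push_cast at h7
      linarith
    exact_mod_cast h9
  rw [pow_succ 3 t] at h8
  nlinarith

/-- the scale parameter -/
noncomputable def tt (J A B : ℕ) : ℕ := (exists_scale J A B).choose

/-- number of vertices and degree factor of the first levels -/
noncomputable def stt : ℕ → ℕ × ℕ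
  | 0 => (1, 1)
  | J + 1 =>
    ((stt J).1 * Fintype.card (X ((tt J (stt J).1 (stt J).2 + 1) * (J + 1))),
      (stt J).2 * cc ((tt J (stt J).1 (stt J).2 + 1) * (J + 1)))

/-- the parameter of a level -/
noncomputable def mm (J : ℕ) : ℕ := (tt J (stt J).1 (stt J).2 + 1) * (J + 1)

theorem stt_fst (J : ℕ) : (stt J).1 = ∏ i ∈ range J, Fintype.card (X (mm i)) := by
  induction J with
  | zero => simp [stt]
  | succ J ih => rw [prod_range_succ, ← ih]; rfl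

theorem stt_snd (J : ℕ) : (stt J).2 = ∏ i ∈ range J, cc (mm i) := by
  induction J with
  | zero => simp [stt]
  | succ J ih => rw [prod_range_succ, ← ih]; rfl

theorem scale (J : ℕ) : ∃ t : ℕ, mm J = (t + 1) * (J + 1) ∧ 1 ≤ t ∧
    (∏ i ∈ range J, Fintype.card (X (mm i))) + 1 ≤ 3 ^ t ∧ 8 * J ≤ 3 ^ t ∧
    16 * ((5096 * (mm J + 1) ^ 4 * ∏ i ∈ range J, cc (mm i)) ^ J + 1) ^ 2 ≤ 2 * 3 ^ t := by
  refine ⟨tt J (stt J).1 (stt J).2, rfl, ?_⟩
  have h := (exists_scale J (stt J).1 (stt J).2).choose_spec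
  rw [← stt_fst, ← stt_snd]
  exact h

theorem two_le_mm (J : ℕ) : 2 ≤ mm J := by
  obtain ⟨t, h1, h2, _⟩ := scale J
  rw [h1]
  nlinarith

end H462R3.WP
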