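import Pool.Agent.H462R3.WP.GateApx
import Pool.Agent.H462R3.WP.Parity
import Pool.Agent.H462R3.WP.Scale
import Pool.Agent.H462R3.WP.Alog

/-!
# PARITY is not reducible to the word problem (helper462)
-/

namespace H462R3.WP

open Finset H746R3.Inv

set_option maxHeartbeats 400000


theorem parity_not_reducible {A : Type} [Fintype A] (γ : A → Grp mm) :
    ¬ AC0TuringReducible PARITY (WordProblem γ) := by
  classical
  rintro ⟨h, c, H⟩
  set lw := wlen γ with hlw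
  have hlw1 : 1 ≤ lw := wlen_pos γ
  set J := h + c + lw + 3 with hJ
  obtain ⟨t, hm, ht1, hA, h8J, hK⟩ := scale J
  set r := 3 ^ t with hr
  obtain ⟨C, hD, hS, hAcc⟩ := H (2 * r)
  set s := (2 * r) ^ c + c with hs
  set M := mm J with hM
  have hr1 : 1 ≤ r := Nat.one_le_pow _ _ (by norm_num)
  have h3M : 3 ^ M = (3 * r) ^ (J + 1) := by
    have e : 3 ^ (t + 1) = 3 * r := by rw [hr, pow_succ]; ring
    rw [hm, pow_mul, e]
  have hrM : r ≤ 3 ^ M := by
    rw [h3M]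
    calc r ≤ 3 * r := by omega
      _ = (3 * r) ^ 1 := (pow_one _).symm
      _ ≤ _ := Nat.pow_le_pow_right (by omega) (by omega)
  have hsz : lw * s < 3 ^ M := by
    have e1 : s ≤ (2 * r) ^ c * (1 + c) := by
      have : 1 ≤ (2 * r) ^ c := Nat.one_le_pow _ _ (by omega)
      rw [hs]; nlinarith
    have e2 : lw ≤ 3 * r := by omega
    have e3 : 1 + c ≤ 3 * r := by omega
    calc lw * s ≤ (3 * r) * ((3 * r) ^ c * (3 * r)) :=
          Nat.mul_le_mul e2 (e1.trans (Nat.mul_le_mul (Nat.pow_le_pow_left (by omega) c) e3))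
      _ = (3 * r) ^ (c + 2) := by ring
      _ < (3 * r) ^ (J + 1) := Nat.pow_lt_pow_right (by omega) (by omega)
      _ = 3 ^ M := h3M.symm
  set ℓ := 7 * M with hℓ
  have hM2 : 2 ≤ M := two_le_mm J
  have hℓ1 : 1 ≤ ℓ := by omega
  obtain ⟨P, hP, E, hE, hPE⟩ := circ_apx (V := Unit × Fin (2 * r)) γ two_le_mm ℓ s J hℓ1
    (fun i => ((), i)) C hS hsz h
  have hcard : Fintype.card (Unit × Fin (2 * r) → Bool) = 2 ^ (2 * r) := by
    rw [Fintype.card_fun, Fintype.card_bool]; simp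
  rw [hcard] at hE
  set K' := 5096 * (M + 1) ^ 4 * ∏ i ∈ range J, cc (mm i) with hK'
  have hcc1 : 1 ≤ ∏ i ∈ range J, cc (mm i) := Nat.one_le_iff_ne_zero.2
    (prod_ne_zero_iff.2 fun i _ => by have := one_le_cc (mm i); omega)
  have hKK : KK mm ℓ J ≤ K' := by
    unfold KK
    rw [← hM, hK', hℓ]
    refine Nat.mul_le_mul_right _ ?_
    have e1 : M ^ 2 ≤ (M + 1) ^ 2 := Nat.pow_le_pow_left (by omega) 2
    calc 104 * (7 * M) ^ 2 * (M + 1) ^ 2 = 5096 * (M ^ 2 * (M + 1) ^ 2) := by ring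
      _ ≤ 5096 * ((M + 1) ^ 2 * (M + 1) ^ 2) := Nat.mul_le_mul_left _ (Nat.mul_le_mul_right _ e1)
      _ = _ := by ring
  have hKK1 : 1 ≤ KK mm ℓ J := by have := four_le_KK mm ℓ J hℓ1; omega
  have hdeg : KK mm ℓ J ^ h ≤ K' ^ J :=
    (Nat.pow_le_pow_left hKK h).trans (Nat.pow_le_pow_right (hKK1.trans hKK) (by omega))
  refine parity_bound r (KK mm ℓ J ^ h) ?_ E ?_
    (wpoly (fun i => ((), i)) P C.out) ?_ ?_
  · refine le_trans ?_ hK
    exact Nat.mul_le_mul_left _ (Nat.pow_le_pow_left (by omega) 2)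
  · have e1 : UU mm lw s J ≤ (3 ^ M) ^ 3 := by
      unfold UU
      have e2 : (lw * s) ^ 2 ≤ (3 ^ M) ^ 2 := Nat.pow_le_pow_left hsz.le 2
      have e3 : 1 ≤ (3 ^ M) ^ 2 := Nat.one_le_pow _ _ (by positivity)
      calc (lw * s) ^ 2 * ∏ i ∈ range J, Fintype.card (X (mm i)) + 1
          ≤ (3 ^ M) ^ 2 * ∏ i ∈ range J, Fintype.card (X (mm i)) + (3 ^ M) ^ 2 :=
            Nat.add_le_add (Nat.mul_le_mul_right _ e2) e3
        _ = (3 ^ M) ^ 2 * (∏ i ∈ range J, Fintype.card (X (mm i)) + 1) := by ring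
        _ ≤ (3 ^ M) ^ 2 * 3 ^ M := Nat.mul_le_mul_left _ (hA.trans hrM)
        _ = _ := by ring
    have e4 : s ≤ 3 ^ M := le_trans (by nlinarith) hsz.le
    have e5 : 8 * h ≤ 3 ^ M := le_trans (by omega) (h8J.trans hrM)
    have e6 : 8 * (h * (s * UU mm lw s J)) ≤ 3 ^ ℓ := by
      calc 8 * (h * (s * UU mm lw s J)) = (8 * h) * (s * UU mm lw s J) := by ring
        _ ≤ 3 ^ M * (3 ^ M * (3 ^ M) ^ 3) := Nat.mul_le_mul e5 (Nat.mul_le_mul e4 e1)
        _ = 3 ^ (5 * M) := by rw [mul_comm 5 M, pow_mul]; ring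
        _ ≤ 3 ^ ℓ := Nat.pow_le_pow_right (by norm_num) (by omega)
    have e7 : (8 * E.card) * 3 ^ ℓ ≤ 2 ^ (2 * r) * 3 ^ ℓ := by
      calc (8 * E.card) * 3 ^ ℓ = 8 * (E.card * 3 ^ ℓ) := by ring
        _ ≤ 8 * ((h * (s * UU mm lw s J)) * 2 ^ (2 * r)) := Nat.mul_le_mul_left _ hE
        _ = (8 * (h * (s * UU mm lw s J))) * 2 ^ (2 * r) := by ring
        _ ≤ 3 ^ ℓ * 2 ^ (2 * r) := Nat.mul_le_mul_right _ e6
        _ = _ := by ring
    exact Nat.le_of_mul_le_mul_right e7 (by positivity)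
  · exact wpoly_mem _ P _ (Nat.one_le_pow _ _ hKK1) hP _
  · intro y hy
    obtain ⟨v, hv, hv'⟩ := C.existsUnique_run (WordProblem γ) (fun i => y ((), i))
    have h1 := wpoly_val (fun i => ((), i)) P C.out y v
      (fun g _ => hPE y hy v hv g (hD g))
    rw [h1]
    have h2 : (C.val (fun i => y ((), i)) v C.out = true) ↔
        Odd ((List.ofFn fun t => y ((), t)).count true) := by
      have h3 := hAcc (fun i => y ((), i))
      constructor
      · intro h4
        exact h3.2 ⟨v, hv, h4⟩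
      · intro h4
        obtain ⟨v', h5, h6⟩ := h3.1 h4
        rw [← hv' v' h5]
        exact h6
    have h7 : (xor C.out.1 (Sum.elim (fun i => y ((), i)) v C.out.2)) =
        C.val (fun i => y ((), i)) v C.out := rfl
    rw [h7]
    by_cases h8 : Odd ((List.ofFn fun t => y ((), t)).count true)
    · rw [if_pos h8, h2.2 h8]; rfl
    · have h9 : C.val (fun i => y ((), i)) v C.out = false := by
        rw [← Bool.not_eq_true, h2]; exact h8
      rw [if_neg h8, h9]; rfl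

end H462R3.WP
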