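import Pool.Agent.H462R3.WP.Tower

/-!
# The groups of the tower are not solvable (helper462)
-/

namespace H462R3.WP

open scoped commutatorElement

/-! ### The generators -/

/-- generator number `k` -/
def gen (m : ℕ → ℕ) (k : Fin 5) : Equiv.Perm (Y m) where
  toFun := act (Pi.single k 1)
  invFun := act (Pi.single k (-1))
  left_inv y := by rw [act_single_add]; simp [act_id]
  right_inv y := by rw [act_single_add]; simp [act_id]

theorem gen_apply (m : ℕ → ℕ) (k : Fin 5) (y : Y m) : gen m k y = act (Pi.single k 1) y := rfl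
theorem gen_inv_apply (m : ℕ → ℕ) (k : Fin 5) (y : Y m) :
    (gen m k)⁻¹ y = act (Pi.single k (-1)) y := rfl

/-- the same on one level -/
def gX (M : ℕ) (k : Fin 5) : Equiv.Perm (X M) where
  toFun := upd (Pi.single k 1)
  invFun := upd (Pi.single k (-1))
  left_inv y := by rw [upd_single_add]; simp [upd_zero]
  right_inv y := by rw [upd_single_add]; simp [upd_zero]

/-- the homomorphism from the free group -/
noncomputable def phi (m : ℕ → ℕ) : FreeGroup (Fin 5) →* Equiv.Perm (Y m) := FreeGroup.lift (gen m)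

theorem phi_of (m : ℕ → ℕ) (k : Fin 5) : phi m (FreeGroup.of k) = gen m k := by
  simp [phi]

/-! ### Transitivity on a level -/

/-- the group generated on one level -/
def HX (M : ℕ) : Subgroup (Equiv.Perm (X M)) := Subgroup.closure (Set.range fun k : Fin 4 => gX M k.castSucc)

theorem gX_mem (M : ℕ) (k : Fin 5) (hk : k ≠ 4) : gX M k ∈ HX M := by
  refine Subgroup.subset_closure ⟨⟨k, by omega⟩, ?_⟩
  rfl

/-- translation of positions -/
def tau {M : ℕ} (v : Pos M) : Equiv.Perm (X M) where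
  toFun x := (x.1 + v, x.2)
  invFun x := (x.1 - v, x.2)
  left_inv x := by simp
  right_inv x := by simp

theorem tau_add {M : ℕ} (v w : Pos M) : tau (v + w) = tau v * tau w := by
  ext1 x
  simp only [tau, Equiv.Perm.coe_mul, Function.comp_apply, Equiv.coe_fn_mk]
  rw [add_assoc, add_comm w v]

theorem tau_neg {M : ℕ} (v : Pos M) : tau (-v) = (tau v)⁻¹ := by
  rw [eq_inv_iff_mul_eq_one, ← tau_add]
  ext1 x
  simp [tau]

theorem tau_zero {M : ℕ} : tau (0 : Pos M) = 1 := by
  ext1 x
  simp [tau]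

/-- the parity letter that acts on coordinate `j` -/
def lt (j : ℕ) : Fin 5 := if j % 2 = 1 then 1 else 2

theorem gX_tau {M : ℕ} (j : ℕ) (v : Pos M) :
    gX M (lt j) * tau v = tau (updPos (Pi.single (lt j) 1) v) * gX M (lt j) := by
  ext1 x
  have key : ∀ q : Pos M, updPos (Pi.single (lt j) 1) (q + v) =
      updPos (Pi.single (lt j) 1) q + updPos (Pi.single (lt j) 1) v := by
    intro q
    funext i
    simp only [updPos, Pi.add_apply, lt]
    by_cases h1 : j % 2 = 1 <;> by_cases h2 : (i : ℕ) = 0 <;> simp [h1, h2] <;>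
      split_ifs <;> ring
  have key2 : ∀ x : X M, gX M (lt j) x = (updPos (Pi.single (lt j) 1) x.1, x.2) := by
    intro x
    refine Prod.ext rfl ?_
    funext w
    simp only [gX, Equiv.coe_fn_mk, upd, lt]
    by_cases h1 : j % 2 = 1 <;> simp [h1]
  simp only [Equiv.Perm.coe_mul, Function.comp_apply, key2]
  simp only [tau, Equiv.coe_fn_mk, key]

theorem tau_mem {M : ℕ} (j : ℕ) (hj : j < M + 1) :
    tau (Pi.single (⟨j, hj⟩ : Fin (M + 1)) 1) ∈ HX M := by
  induction j with
  | zero =>
    have h : tau (Pi.single (⟨0, hj⟩ : Fin (M + 1)) 1) = gX M 0 := by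
      ext1 x
      refine Prod.ext ?_ ?_
      · funext i
        simp only [tau, gX, Equiv.coe_fn_mk, upd, updPos, Pi.add_apply, Pi.single_eq_same]
        by_cases hi : (i : ℕ) = 0 <;> simp [hi, Pi.single_apply, Fin.ext_iff]
      · funext w
        simp [tau, gX, upd]
    rw [h]
    exact gX_mem M 0 (by decide)
  | succ j ih =>
    have ih' := ih (by omega)
    have h1 : updPos (Pi.single (lt (j + 1)) 1) (Pi.single (⟨j, by omega⟩ : Fin (M + 1)) 1) =
        Pi.single (⟨j + 1, hj⟩ : Fin (M + 1)) 1 + (Pi.single (⟨j, by omega⟩ : Fin (M + 1)) 1 : Pos M) := by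
      funext i
      simp only [updPos, Pi.add_apply, Pi.single_apply, Fin.ext_iff, lt]
      by_cases h2 : (i : ℕ) = 0
      · have h3 : (i : ℕ) ≠ j + 1 := by omega
        by_cases h4 : (j + 1) % 2 = 1 <;> simp [h2, h4]
      · by_cases h3 : (i : ℕ) = j + 1
        · by_cases h4 : (j + 1) % 2 = 1 <;> simp [h3, h4]
        · have h5 : ¬ (i : ℕ) - 1 = j := by omega
          by_cases h4 : (j + 1) % 2 = 1 <;> simp [h2, h3, h5]
    have h2 := gX_tau (M := M) (j + 1) (Pi.single (⟨j, by omega⟩ : Fin (M + 1)) 1)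
    rw [h1, tau_add] at h2
    have h3 : tau (Pi.single (⟨j + 1, hj⟩ : Fin (M + 1)) 1) =
        gX M (lt (j + 1)) * tau (Pi.single (⟨j, by omega⟩ : Fin (M + 1)) 1) *
          (gX M (lt (j + 1)))⁻¹ * (tau (Pi.single (⟨j, by omega⟩ : Fin (M + 1)) 1))⁻¹ := by
      rw [h2]; group
    rw [h3]
    have h4 : gX M (lt (j + 1)) ∈ HX M := gX_mem M _ (by unfold lt; split_ifs <;> decide)
    exact mul_mem (mul_mem (mul_mem h4 ih') (inv_mem h4)) (inv_mem ih')

theorem nsmul_val (c : ZMod 3) {ι : Type*} [DecidableEq ι] (i : ι) :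
    (Pi.single i c : ι → ZMod 3) = c.val • Pi.single i 1 := by
  rw [← Pi.single_smul']
  congr 1
  simp

theorem tau_mem' {M : ℕ} (v : Pos M) : tau v ∈ HX M := by
  let T : AddSubmonoid (Pos M) :=
    { carrier := {v | tau v ∈ HX M}
      add_mem' := fun {a b} ha hb => by
        simp only [Set.mem_ofPred_eq] at ha hb ⊢
        rw [tau_add]; exact mul_mem ha hb
      zero_mem' := by
        simp only [Set.mem_ofPred_eq]
        rw [tau_zero]; exact one_mem _ }
  have h : v ∈ T := by
    rw [← Finset.univ_sum_single v]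
    refine AddSubmonoid.sum_mem _ fun j _ => ?_
    rw [nsmul_val]
    exact AddSubmonoid.nsmul_mem _ (tau_mem j.1 j.2) _
  exact h

/-- reachability -/
def Rch {M : ℕ} (x x' : X M) : Prop := ∃ ρ ∈ HX M, ρ x = x'

theorem Rch.refl {M : ℕ} (x : X M) : Rch x x := ⟨1, one_mem _, rfl⟩
theorem Rch.symm {M : ℕ} {x x' : X M} (h : Rch x x') : Rch x' x := by
  obtain ⟨ρ, h1, h2⟩ := h
  exact ⟨ρ⁻¹, inv_mem h1, by rw [← h2]; simp⟩
theorem Rch.trans {M : ℕ} {x x' x'' : X M} (h : Rch x x') (h' : Rch x' x'') : Rch x x'' := by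
  obtain ⟨ρ, h1, h2⟩ := h
  obtain ⟨ρ', h1', h2'⟩ := h'
  exact ⟨ρ' * ρ, mul_mem h1' h1, by rw [Equiv.Perm.mul_apply, h2, h2']⟩

theorem rch_pos {M : ℕ} (q q' : Pos M) (f : Pos M → ZMod 3) : Rch (q, f) (q', f) :=
  ⟨tau (q' - q), tau_mem' _, by simp [tau]⟩

theorem rch_lamp {M : ℕ} (q : Pos M) (f : Pos M → ZMod 3) :
    Rch (q, f) (q, f + Pi.single q 1) := by
  refine ⟨gX M 3, gX_mem M 3 (by decide), ?_⟩
  refine Prod.ext ?_ ?_
  · funext j
    simp [gX, upd, updPos]
  · funext w
    by_cases h : q = w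
    · subst h; simp [gX, upd]
    · simp [gX, upd, h, Pi.single_eq_of_ne (Ne.symm h)]

theorem rch_all {M : ℕ} (x x' : X M) : Rch x x' := by
  let N : AddSubmonoid (Pos M → ZMod 3) :=
    { carrier := {g | ∀ f, Rch (M := M) (0, f) (0, f + g)}
      add_mem' := fun {a b} ha hb => by
        simp only [Set.mem_ofPred_eq] at ha hb ⊢
        intro f
        rw [← add_assoc]
        exact (ha f).trans (hb _)
      zero_mem' := by
        simp only [Set.mem_ofPred_eq]
        intro f
        rw [add_zero]; exact Rch.refl _ }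
  have h1 : ∀ w : Pos M, (Pi.single w 1 : Pos M → ZMod 3) ∈ N := by
    intro w f
    exact ((rch_pos 0 w f).trans (rch_lamp w f)).trans (rch_pos w 0 _)
  have h2 : ∀ g : Pos M → ZMod 3, g ∈ N := by
    intro g
    rw [← Finset.univ_sum_single g]
    refine AddSubmonoid.sum_mem _ fun j _ => ?_
    rw [nsmul_val]
    exact AddSubmonoid.nsmul_mem _ (h1 j) _
  obtain ⟨q, f⟩ := x
  obtain ⟨q', f'⟩ := x'
  have h3 := h2 (f' - f) f
  rw [add_sub_cancel] at h3
  exact ((rch_pos q 0 f).trans h3).trans (rch_pos 0 q' f')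

/-! ### Elements acting on the head only -/

theorem headOnly {m : ℕ → ℕ} (ρ : Equiv.Perm (X (m 0))) (hρ : ρ ∈ HX (m 0)) :
    ∃ g : FreeGroup (Fin 5), ∀ y : Y m, (phi m g y) 0 = ρ (y 0) ∧ tl (phi m g y) = tl y := by
  refine Subgroup.closure_induction (p := fun ρ _ => ∃ g : FreeGroup (Fin 5), ∀ y : Y m,
    (phi m g y) 0 = ρ (y 0) ∧ tl (phi m g y) = tl y) ?_ ?_ ?_ ?_ hρ
  · rintro _ ⟨k, rfl⟩
    refine ⟨FreeGroup.of k.castSucc, fun y => ?_⟩
    rw [phi_of, gen_apply]
    refine ⟨rfl, ?_⟩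
    rw [tl_act, sec_of_ne, act_id]
    intro h
    have := congrArg Fin.val h
    simp at this
    omega
  · exact ⟨1, fun y => by simp⟩
  · rintro a b _ _ ⟨g, hg⟩ ⟨h, hh⟩
    refine ⟨g * h, fun y => ?_⟩
    rw [map_mul, Equiv.Perm.mul_apply, Equiv.Perm.mul_apply]
    exact ⟨by rw [(hg _).1, (hh _).1], by rw [(hg _).2, (hh _).2]⟩
  · rintro a _ ⟨g, hg⟩
    refine ⟨g⁻¹, fun y => ?_⟩
    rw [map_inv]
    set z := (phi m g)⁻¹ y with hz
    have h1 : phi m g z = y := by rw [hz]; simp
    have h2 := hg z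
    rw [h1] at h2
    exact ⟨by rw [h2.1]; simp, h2.2.symm⟩

/-- the commutator -/
def cb : FreeGroup (Fin 5) := ⁅(FreeGroup.of 4 : FreeGroup (Fin 5)), (FreeGroup.of 0 : FreeGroup (Fin 5))⁆

theorem comm_action {m : ℕ → ℕ} (k : Fin 5) (y : Y m) (hy : y 0 = spec k) :
    (phi m cb y) 0 = spec k ∧
      tl (phi m cb y) = gen _ k (tl y) := by
  rw [cb, commutatorElement_def, map_mul, map_mul, map_mul, map_inv, map_inv, phi_of, phi_of,
    Equiv.Perm.mul_apply, Equiv.Perm.mul_apply, Equiv.Perm.mul_apply]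
  set z := (gen m 0)⁻¹ y with hz
  have hz0 : ∀ l, z 0 ≠ spec l := by
    intro l hl
    have h1 := congrFun (congrArg Prod.fst hl) 0
    rw [hz, gen_inv_apply, act_zero, hy] at h1
    simp [upd, updPos, spec] at h1
  have h1 : (gen m 4)⁻¹ z = z := by
    rw [gen_inv_apply]
    refine Y_ext ?_ ?_
    · rw [act_zero, upd_four]
    · rw [tl_act]
      have : sec (Pi.single 4 (-1)) (z 0) = 0 := by
        funext l
        simp [sec, hz0 l]
      rw [this, act_id]
  rw [h1]
  have h2 : gen m 0 z = y := by rw [hz]; simp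
  rw [h2, gen_apply, gen_apply]
  constructor
  · rw [act_zero, upd_four, hy]
  · rw [tl_act, hy]
    congr 1
    funext l
    simp only [sec, Pi.single_eq_same]
    by_cases hl : l = k
    · subst hl; simp
    · rw [if_neg (fun h => hl (spec_injective h).symm), Pi.single_eq_of_ne hl]

/-- the substituted words -/
theorem exists_u (m : ℕ → ℕ) (k : Fin 5) : ∃ u ∈ derivedSeries (FreeGroup (Fin 5)) 1,
    ∀ y : Y m, y 0 = spec 4 → (phi m u y) 0 = spec 4 ∧ tl (phi m u y) = gen _ k (tl y) := by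
  obtain ⟨ρ, hρ, h1⟩ := rch_all (M := m 0) (spec 4) (spec k)
  obtain ⟨g, hg⟩ := headOnly (m := m) ρ hρ
  have hc : cb ∈
      derivedSeries (FreeGroup (Fin 5)) 1 := by
    rw [cb, derivedSeries_one, commutator_def]
    exact Subgroup.commutator_mem_commutator (Subgroup.mem_top _) (Subgroup.mem_top _)
  refine ⟨g⁻¹ * cb * g, ?_, ?_⟩
  · have h2 := (derivedSeries_normal (FreeGroup (Fin 5)) 1).conj_mem _ hc g⁻¹
    rwa [inv_inv] at h2
  · intro y hy
    rw [map_mul, map_mul, Equiv.Perm.mul_apply, Equiv.Perm.mul_apply, map_inv]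
    have h2 := hg y
    rw [hy, h1] at h2
    have h3 := comm_action k (phi m g y) h2.1
    rw [h2.2] at h3
    set z := phi m cb (phi m g y) with hz
    set z' := (phi m g)⁻¹ z with hz'
    have h4 : phi m g z' = z := by rw [hz']; simp
    have h5 := hg z'
    rw [h4] at h5
    constructor
    · have h6 : ρ (z' 0) = ρ (spec 4) := by rw [← h5.1, h3.1, h1]
      exact ρ.injective h6
    · rw [← h5.2, h3.2]

theorem map_derived {G : Type*} [Group G] (θ : G →* G) (hθ : ∀ g, θ g ∈ derivedSeries G 1) (n : ℕ) :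
    (derivedSeries G n).map θ ≤ derivedSeries G (n + 1) := by
  induction n with
  | zero =>
    rintro _ ⟨g, _, rfl⟩
    exact hθ g
  | succ n ih =>
    rw [derivedSeries_succ, Subgroup.map_commutator, derivedSeries_succ]
    exact Subgroup.commutator_mono ih ih

theorem exists_nontrivial (n : ℕ) : ∀ (m : ℕ → ℕ), (∀ i, 2 ≤ m i) →
    ∃ w ∈ derivedSeries (FreeGroup (Fin 5)) n, phi m w ≠ 1 := by
  induction n with
  | zero =>
    intro m hm
    refine ⟨FreeGroup.of 0, by simp, ?_⟩
    rw [phi_of]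
    intro h
    have h1 := act_single_faithful hm 0 1 (fun y => by
      have := congrArg (fun p : Equiv.Perm (Y m) => p y) h
      exact this)
    exact one_ne_zero h1
  | succ n ih =>
    intro m hm
    obtain ⟨w, hw, hw1⟩ := ih (fun i => m (i + 1)) (fun i => hm (i + 1))
    choose u hu1 hu2 using exists_u m
    set θ : FreeGroup (Fin 5) →* FreeGroup (Fin 5) := FreeGroup.lift u with hθ
    have hθof : ∀ k, θ (FreeGroup.of k) = u k := fun k => by simp [hθ]
    have hθm : ∀ g, θ g ∈ derivedSeries (FreeGroup (Fin 5)) 1 := by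
      intro g
      induction g using FreeGroup.induction_on with
      | C1 => rw [map_one]; exact one_mem _
      | of k => rw [hθof]; exact hu1 k
      | inv_of k ih => rw [map_inv]; exact inv_mem ih
      | mul a b ha hb => rw [map_mul]; exact mul_mem ha hb
    refine ⟨θ w, map_derived θ hθm n ⟨w, hw, rfl⟩, ?_⟩
    have key : ∀ g, ∀ y : Y m, y 0 = spec 4 →
        (phi m (θ g) y) 0 = spec 4 ∧ tl (phi m (θ g) y) = phi _ g (tl y) := by
      have hinv : ∀ g, (∀ y : Y m, y 0 = spec 4 →
          (phi m (θ g) y) 0 = spec 4 ∧ tl (phi m (θ g) y) = phi _ g (tl y)) →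
          ∀ y : Y m, y 0 = spec 4 →
          (phi m (θ g⁻¹) y) 0 = spec 4 ∧ tl (phi m (θ g⁻¹) y) = phi _ g⁻¹ (tl y) := by
        intro g hg y hy
        rw [map_inv, map_inv, map_inv]
        set z : Y m := consY (spec 4) ((phi (fun i => m (i + 1)) g)⁻¹ (tl y)) with hz
        have h1 := hg z rfl
        have h2 : phi m (θ g) z = y := by
          refine Y_ext ?_ ?_
          · rw [h1.1, hy]
          · rw [h1.2, hz, tl_consY]; simp
        have h3 : (phi m (θ g))⁻¹ y = z := by rw [← h2]; simp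
        rw [h3]
        exact ⟨rfl, rfl⟩
      intro g
      induction g using FreeGroup.induction_on with
      | C1 => intro y hy; rw [map_one, map_one, map_one]; exact ⟨hy, rfl⟩
      | of k =>
        intro y hy
        rw [hθof, phi_of]
        exact hu2 k y hy
      | inv_of k ih => exact hinv _ ih
      | mul a b ha hb =>
        intro y hy
        rw [map_mul, map_mul, map_mul, Equiv.Perm.mul_apply, Equiv.Perm.mul_apply]
        have h1 := hb y hy
        have h2 := ha _ h1.1
        rw [h1.2] at h2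
        exact h2
    intro h
    apply hw1
    ext1 y'
    have h1 := (key w (consY (spec 4) y') rfl).2
    rw [h] at h1
    exact h1.symm

/-- the group -/
def Grp (m : ℕ → ℕ) : Subgroup (Equiv.Perm (Y m)) := Subgroup.closure (Set.range (gen m))

theorem grp_fg (m : ℕ → ℕ) : Group.FG (Grp m) := by
  rw [Group.fg_iff_subgroup_fg]
  classical
  exact ⟨Finset.univ.image (gen m), by rw [Finset.coe_image, Finset.coe_univ, Set.image_univ]; rfl⟩

theorem grp_not_solvable (m : ℕ → ℕ) (hm : ∀ i, 2 ≤ m i) : ¬ Group.IsSolvable (Grp m) := by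
  rintro ⟨n, hn⟩
  obtain ⟨w, hw, hw1⟩ := exists_nontrivial n m hm
  have hmem : ∀ g, phi m g ∈ Grp m := by
    intro g
    induction g using FreeGroup.induction_on with
    | C1 => rw [map_one]; exact one_mem _
    | of k => rw [phi_of]; exact Subgroup.subset_closure ⟨k, rfl⟩
    | inv_of k ih => rw [map_inv]; exact inv_mem ih
    | mul a b ha hb => rw [map_mul]; exact mul_mem ha hb
  let ψ : FreeGroup (Fin 5) →* Grp m := (phi m).codRestrict (Grp m) hmem
  have h1 : ψ w ∈ derivedSeries (Grp m) n :=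
    map_derivedSeries_le_derivedSeries ψ n ⟨w, hw, rfl⟩
  rw [hn, Subgroup.mem_bot] at h1
  exact hw1 (congrArg Subtype.val h1)

end H462R3.WP
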