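import Mathlib

/-!
# A tower of 3-groups (helper462)
-/

namespace H462R3.WP

/-- generalised letters -/
abbrev Letter := Fin 5 → ZMod 3

/-- positions -/
abbrev Pos (M : ℕ) := Fin (M + 1) → ZMod 3

/-- states of one level: position and lamps -/
abbrev X (M : ℕ) := Pos M × (Pos M → ZMod 3)

/-- the action on positions -/
def updPos {M : ℕ} (e : Letter) (q : Pos M) : Pos M := fun j =>
  q j + if (j : ℕ) = 0 then e 0
    else (if (j : ℕ) % 2 = 1 then e 1 else e 2) * q ⟨j - 1, by omega⟩

/-- the action on one level -/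
def upd {M : ℕ} (e : Letter) (x : X M) : X M :=
  (updPos e x.1, fun w => x.2 w + if x.1 = w then e 3 else 0)

def al : Fin 5 → ZMod 3 := ![1, 2, 0, 1, 0]
def be : Fin 5 → ZMod 3 := ![0, 0, 1, 1, 0]

/-- special points -/
def spec {M : ℕ} (k : Fin 5) : X M := (0, fun w => al k + be k * w 0)

/-- sections -/
def sec {M : ℕ} (e : Letter) (x : X M) : Letter := fun k => if x = spec k then e 4 else 0

/-- points of the tower -/
abbrev Y (m : ℕ → ℕ) := ∀ i, X (m i)

def tl {m : ℕ → ℕ} (y : Y m) : Y (fun i => m (i + 1)) := fun i => y (i + 1)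

def consY {m : ℕ → ℕ} (x : X (m 0)) (y : Y (fun i => m (i + 1))) : Y m
  | 0 => x
  | i + 1 => y i

@[simp] theorem consY_zero {m : ℕ → ℕ} (x : X (m 0)) (y : Y (fun i => m (i + 1))) :
    (consY x y : Y m) 0 = x := rfl
@[simp] theorem tl_consY {m : ℕ → ℕ} (x : X (m 0)) (y : Y (fun i => m (i + 1))) :
    tl (consY x y : Y m) = y := rfl

theorem Y_ext {m : ℕ → ℕ} {y z : Y m} (h0 : y 0 = z 0) (h1 : tl y = tl z) : y = z := by
  funext i
  cases i with
  | zero => exact h0
  | succ i => exact congrFun h1 i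

/-- the letters acting on the levels -/
def lets {m : ℕ → ℕ} (e : Letter) (y : Y m) : ℕ → Letter
  | 0 => e
  | i + 1 => sec (lets e y i) (y i)

/-- the action on the tower -/
def act {m : ℕ → ℕ} (e : Letter) (y : Y m) : Y m := fun i => upd (lets e y i) (y i)

theorem lets_succ {m : ℕ → ℕ} (e : Letter) (y : Y m) (i : ℕ) :
    lets e y (i + 1) = lets (sec e (y 0)) (tl y) i := by
  induction i with
  | zero => rfl
  | succ i ih => rw [lets, ih]; rfl

@[simp] theorem act_zero {m : ℕ → ℕ} (e : Letter) (y : Y m) : act e y 0 = upd e (y 0) := rfl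

@[simp] theorem tl_act {m : ℕ → ℕ} (e : Letter) (y : Y m) :
    tl (act e y) = act (sec e (y 0)) (tl y) := by
  funext i
  show upd (lets e y (i + 1)) (y (i + 1)) = _
  rw [lets_succ]; rfl

/-! ### Runs of words -/

def st {M : ℕ} (w : ℕ → Letter) (x : X M) : ℕ → X M
  | 0 => x
  | i + 1 => upd (w i) (st w x i)

def runY {m : ℕ → ℕ} (w : ℕ → Letter) (y : Y m) : ℕ → Y m
  | 0 => y
  | i + 1 => act (w i) (runY w y i)

def secw {M : ℕ} (w : ℕ → Letter) (x : X M) : ℕ → Letter := fun i => sec (w i) (st w x i)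

/-- the word `w 0, …, w (n-1)` acts trivially -/
def Triv (m : ℕ → ℕ) (w : ℕ → Letter) (n : ℕ) : Prop := ∀ y : Y m, runY w y n = y

theorem runY_zero {m : ℕ → ℕ} (w : ℕ → Letter) (y : Y m) (i : ℕ) :
    runY w y i 0 = st w (y 0) i := by
  induction i with
  | zero => rfl
  | succ i ih => rw [runY, act_zero, ih]; rfl

theorem runY_tl {m : ℕ → ℕ} (w : ℕ → Letter) (y : Y m) (i : ℕ) :
    tl (runY w y i) = runY (secw w (y 0)) (tl y) i := by
  induction i with
  | zero => rfl
  | succ i ih => rw [runY, tl_act, ih, runY_zero]; rfl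

theorem triv_iff (m : ℕ → ℕ) (w : ℕ → Letter) (n : ℕ) :
    Triv m w n ↔ (∀ x : X (m 0), st w x n = x) ∧
      ∀ x : X (m 0), Triv (fun i => m (i + 1)) (secw w x) n := by
  constructor
  · intro h
    constructor
    · intro x
      have h1 := congrFun (h (consY x (fun _ => 0))) 0
      rw [runY_zero] at h1
      exact h1
    · intro x y'
      have h1 := congrArg tl (h (consY x y'))
      rw [runY_tl] at h1
      exact h1
  · rintro ⟨h1, h2⟩ y
    refine Y_ext ?_ ?_
    · rw [runY_zero, h1]
    · rw [runY_tl, h2]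

/-! ### Words of a single type -/

theorem al_be : ∀ k k' : Fin 5, k ≠ k' → ∃ c : ZMod 3, al k + be k * c ≠ al k' + be k' * c := by
  decide

theorem spec_injective {M : ℕ} : Function.Injective (spec : Fin 5 → X M) := by
  intro k k' h
  by_contra hne
  obtain ⟨c, hc⟩ := al_be k k' hne
  exact hc (congrFun (congrArg Prod.snd h) (fun _ => c))

theorem updPos_zero {M : ℕ} (q : Pos M) : updPos 0 q = q := by
  funext j; simp [updPos]

theorem upd_zero {M : ℕ} (x : X M) : upd 0 x = x := by
  refine Prod.ext (updPos_zero _) ?_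
  funext w; simp [upd]

theorem sec_zero {M : ℕ} (x : X M) : sec 0 x = 0 := by
  funext k; simp [sec]

theorem act_id {m : ℕ → ℕ} (y : Y m) : act 0 y = y := by
  have h : ∀ i, lets 0 y i = 0 := by
    intro i
    induction i with
    | zero => rfl
    | succ i ih => rw [lets, ih, sec_zero]
  funext i
  rw [act, h, upd_zero]

theorem upd_four {M : ℕ} (a : ZMod 3) (x : X M) : upd (Pi.single 4 a) x = x := by
  refine Prod.ext ?_ ?_
  · funext j
    simp [upd, updPos, Pi.single_apply]
  · funext w
    simp [upd, Pi.single_apply]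

theorem sec_of_ne {M : ℕ} (k : Fin 5) (hk : k ≠ 4) (a : ZMod 3) (x : X M) :
    sec (Pi.single k a) x = 0 := by
  funext k'
  simp [sec, Pi.single_apply, Ne.symm hk]

theorem sec_single {M : ℕ} (k : Fin 5) (x : X M) :
    ∃ (k' : Fin 5) (c : ZMod 3), ∀ a, sec (Pi.single k a) x = Pi.single k' (a * c) := by
  by_cases hk : k = 4
  · subst hk
    by_cases hx : ∃ k', x = spec k'
    · obtain ⟨k', rfl⟩ := hx
      refine ⟨k', 1, fun a => ?_⟩
      funext l
      simp only [sec, Pi.single_eq_same, mul_one]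
      by_cases hl : l = k'
      · subst hl; simp
      · rw [if_neg (fun h => hl (spec_injective h).symm), Pi.single_eq_of_ne hl]
    · refine ⟨0, 0, fun a => ?_⟩
      funext l
      simp only [sec]
      rw [if_neg (fun h => hx ⟨l, h⟩)]
      simp
  · exact ⟨0, 0, fun a => by rw [sec_of_ne k hk]; simp⟩

theorem sec_upd_single {M : ℕ} (k : Fin 5) (a b : ZMod 3) (x : X M) :
    sec (Pi.single k a) (upd (Pi.single k b) x) = sec (Pi.single k a) x := by
  by_cases hk : k = 4
  · subst hk; rw [upd_four]
  · rw [sec_of_ne k hk, sec_of_ne k hk]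

theorem upd_single_add {M : ℕ} (k : Fin 5) (a b : ZMod 3) (x : X M) :
    upd (Pi.single k a) (upd (Pi.single k b) x) = upd (Pi.single k (a + b)) x := by
  refine Prod.ext ?_ ?_
  · funext j
    simp only [upd, updPos, Pi.single_apply]
    fin_cases k
    · by_cases hj : (j : ℕ) = 0 <;> simp [hj]; ring
    · by_cases hj : (j : ℕ) = 0 <;> by_cases hj' : (j : ℕ) % 2 = 1 <;> simp [hj, hj']
      by_cases hj2 : (j : ℕ) - 1 = 0
      · simp [hj2]; ring
      · have : ¬ ((j : ℕ) - 1) % 2 = 1 := by omega
        simp [hj2, this]; ring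
    · by_cases hj : (j : ℕ) = 0 <;> by_cases hj' : (j : ℕ) % 2 = 1 <;> simp [hj, hj']
      by_cases hj2 : (j : ℕ) - 1 = 0
      · simp [hj2]; ring
      · have : ((j : ℕ) - 1) % 2 = 1 := by omega
        simp [hj2, this]; ring
    · simp
    · simp
  · funext w
    have h1 : (upd (Pi.single k b : Letter) x).1 = x.1 ∨ k ≠ 3 := by
      by_cases hk : k = 3
      · left; subst hk; funext j; simp [upd, updPos, Pi.single_apply]
      · right; exact hk
    rcases h1 with h1 | h1
    · show (x.2 w + if x.1 = w then (Pi.single k b : Letter) 3 else 0) + (if (upd (Pi.single k b : Letter) x).1 = w then (Pi.single k a : Letter) 3 else 0) = x.2 w + if x.1 = w then (Pi.single k (a + b) : Letter) 3 else 0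
      rw [h1, Pi.single_add]
      split_ifs <;> simp [Pi.add_apply]; ring
    · simp [upd, Pi.single_apply, Ne.symm h1]

theorem act_single_add {m : ℕ → ℕ} (k : Fin 5) (a b : ZMod 3) (y : Y m) :
    act (Pi.single k a) (act (Pi.single k b) y) = act (Pi.single k (a + b)) y := by
  funext i
  induction i generalizing m k a b with
  | zero => simp only [act_zero]; exact upd_single_add k a b (y 0)
  | succ i ih =>
    obtain ⟨k', c, hc⟩ := sec_single k (y 0)
    have e1 : act (Pi.single k a) (act (Pi.single k b) y) (i + 1) =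
        tl (act (Pi.single k a) (act (Pi.single k b) y)) i := rfl
    have e2 : act (Pi.single k (a + b)) y (i + 1) = tl (act (Pi.single k (a + b)) y) i := rfl
    rw [e1, e2, tl_act, tl_act, tl_act, act_zero, sec_upd_single, hc, hc, hc, ih, add_mul]

/-- a word of a single type -/
def sgl (k : Fin 5) (c : ℕ → ZMod 3) : ℕ → Letter := fun i => Pi.single k (c i)

theorem runY_sgl {m : ℕ → ℕ} (k : Fin 5) (c : ℕ → ZMod 3) (y : Y m) (n : ℕ) :
    runY (sgl k c) y n = act (Pi.single k (∑ i ∈ Finset.range n, c i)) y := by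
  induction n with
  | zero => rw [runY]; simp only [Finset.range_zero, Finset.sum_empty, Pi.single_zero]; exact (act_id y).symm
  | succ n ih =>
    rw [runY, ih, Finset.sum_range_succ, sgl, act_single_add, add_comm]

theorem upd_faithful {M : ℕ} (hM : 2 ≤ M) (k : Fin 5) (hk : k ≠ 4) (a : ZMod 3)
    (h : upd (Pi.single k a) ((fun _ => 1, 0) : X M) = (fun _ => 1, 0)) : a = 0 := by
  have h1 := congrArg Prod.fst h
  have h2 := congrArg Prod.snd h
  fin_cases k
  · have := congrFun h1 0
    simpa [upd, updPos] using this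
  · have := congrFun h1 ⟨1, by omega⟩
    simpa [upd, updPos] using this
  · have := congrFun h1 ⟨2, by omega⟩
    simpa [upd, updPos] using this
  · have := congrFun h2 (fun _ => 1)
    simpa [upd] using this
  · exact absurd rfl hk

theorem act_single_faithful {m : ℕ → ℕ} (hm : ∀ i, 2 ≤ m i) (k : Fin 5) (a : ZMod 3)
    (h : ∀ y : Y m, act (Pi.single k a) y = y) : a = 0 := by
  by_cases hk : k = 4
  · subst hk
    have h1 := congrArg tl (h (consY (spec 0) (fun _ => (fun _ => 1, 0))))
    rw [tl_act] at h1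
    have h2 := congrFun h1 0
    rw [act_zero] at h2
    have h3 : sec (Pi.single 4 a) ((consY (spec 0) (fun _ => (fun _ => 1, 0)) : Y m) 0) =
        Pi.single 0 a := by
      funext l
      simp only [consY_zero, sec, Pi.single_eq_same]
      by_cases hl : l = 0
      · subst hl; simp
      · rw [if_neg (fun h => hl (spec_injective h).symm), Pi.single_eq_of_ne hl]
    rw [h3] at h2
    exact upd_faithful (hm 1) 0 (by decide) a h2
  · have h1 := congrFun (h (fun _ => (fun _ => 1, 0))) 0
    exact upd_faithful (hm 0) k hk a h1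

theorem triv_sgl {m : ℕ → ℕ} (hm : ∀ i, 2 ≤ m i) (k : Fin 5) (c : ℕ → ZMod 3) (n : ℕ) :
    Triv m (sgl k c) n ↔ ∑ i ∈ Finset.range n, c i = 0 := by
  constructor
  · intro h
    refine act_single_faithful hm k _ fun y => ?_
    rw [← runY_sgl, h y]
  · intro h y
    rw [runY_sgl, h, Pi.single_zero, act_id]

end H462R3.WP
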